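import Pool.Agent.Work.MP_79a731_al.H5.Core

/-!
Normal systems.
-/

set_option autoImplicit false

namespace Pool.MP_79a731_al.H5

open Function
open scoped commutatorElement

noncomputable section

variable {G : Type*} [Group G]

/-- good factors -/
def GoodFactor (A B : Subgroup G) [A.Normal] : Prop :=
  ⁅B, B⁆ ≤ A ∨ ¬ RatIn (B.map (QuotientGroup.mk' A)) ∨
    ∃ p : ℕ, p.Prime ∧ ∀ L : Subgroup (G ⧸ A), L ≤ B.map (QuotientGroup.mk' A) → L.FG → L ≠ ⊥ →
      ∃ χ : L →* Multiplicative (ZMod p), χ ≠ 1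

/-- complete normal systems with good factors -/
def HasSystem (N : Subgroup G) : Prop :=
  ∃ (C : Set (Subgroup G)) (hn : ∀ A ∈ C, A.Normal), IsChain (· ≤ ·) C ∧ ⊥ ∈ C ∧ N ∈ C ∧
    (∀ D ⊆ C, D.Nonempty → sSup D ∈ C ∧ sInf D ∈ C) ∧
    ∀ (A : Subgroup G) (hA : A ∈ C) (B : Subgroup G), B ∈ C → A < B →
      (∀ K ∈ C, K ≤ A ∨ B ≤ K) → haveI := hn A hA; GoodFactor A B

/-- transfer of the conditions -/
lemma transfer {V A B : Subgroup G} [V.Normal] [A.Normal] (hVB : V ≤ B) :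
    (RatIn (V.map (QuotientGroup.mk' (V ⊓ A))) → RatIn (B.map (QuotientGroup.mk' A))) ∧
    ∀ p, PPerf p (V.map (QuotientGroup.mk' (V ⊓ A))) →
      PPerf p (B.map (QuotientGroup.mk' A)) := by
  let θ : G ⧸ (V ⊓ A) →* G ⧸ A := QuotientGroup.map (V ⊓ A) A (MonoidHom.id G)
    (fun x hx => hx.2)
  have hθ : ∀ g : G, θ (QuotientGroup.mk' (V ⊓ A) g) = QuotientGroup.mk' A g := fun g => rfl
  have hinj : ∀ x ∈ V.map (QuotientGroup.mk' (V ⊓ A)), θ x = 1 → x = 1 := by
    rintro _ ⟨v, hv, rfl⟩ h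
    rw [hθ] at h
    exact (QuotientGroup.eq_one_iff _).mpr ⟨hv, (QuotientGroup.eq_one_iff _).mp h⟩
  have hmap : ∀ x ∈ V.map (QuotientGroup.mk' (V ⊓ A)), θ x ∈ B.map (QuotientGroup.mk' A) := by
    rintro _ ⟨v, hv, rfl⟩
    exact ⟨v, hVB hv, rfl⟩
  constructor
  · rintro ⟨φ, hφ, hφV, D, hD, hφD⟩
    refine ⟨θ.comp φ, ?_, fun q => hmap _ (hφV q), ConjClasses.map θ '' D, hD.image _,
      fun q hq => ⟨_, hφD q hq, rfl⟩⟩
    rw [injective_iff_map_eq_one]
    intro q hq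
    have h1 := hinj _ (hφV q) hq
    rw [← map_one φ] at h1
    exact hφ h1
  · rintro p ⟨L, hLV, hfg, hL, hχ⟩
    have hfg' : (L.map θ).FG := by
      rw [Subgroup.fg_iff] at hfg ⊢
      obtain ⟨S, hS, hSf⟩ := hfg
      exact ⟨θ '' S, by rw [← MonoidHom.map_closure, hS], hSf.image _⟩
    refine ⟨L.map θ, ?_, hfg', ?_, ?_⟩
    · rintro _ ⟨x, hx, rfl⟩
      exact hmap x (hLV hx)
    · intro h
      apply hL
      rw [eq_bot_iff]
      intro x hx
      have h1 : θ x ∈ L.map θ := ⟨x, hx, rfl⟩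
      rw [h, Subgroup.mem_bot] at h1
      exact hinj x (hLV hx) h1
    · intro χ
      have h1 := hχ (χ.comp (θ.subgroupMap L))
      ext x
      obtain ⟨y, hy⟩ := θ.subgroupMap_surjective L x
      have h2 := congrArg (fun f : L →* Multiplicative (ZMod p) => f y) h1
      rw [← hy]
      simpa using congrArg Multiplicative.toAdd h2

/-- a perfect, finitely normally generated subgroup with large quotients does not lie in a
normal system with good factors -/
lemma not_system {V : Subgroup G} [hVn : V.Normal] (hbot : V ≠ ⊥) (hperf : ⁅V, V⁆ = V)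
    (hF : ∃ F : Finset G, V = Subgroup.normalClosure (F : Set G))
    (hW : ∀ (W : Subgroup G) (_ : W.Normal), W < V → RatIn (V.map (QuotientGroup.mk' W)) ∧
        ∀ p : ℕ, p.Prime → PPerf p (V.map (QuotientGroup.mk' W)))
    {N : Subgroup G} (hVN : V ≤ N) : ¬ HasSystem N := by
  classical
  rintro ⟨C, hn, hchain, hbotC, hNC, hcl, hjump⟩
  let D1 : Set (Subgroup G) := {K | K ∈ C ∧ V ≤ K}
  let D2 : Set (Subgroup G) := {K | K ∈ C ∧ ¬ V ≤ K}
  have hD1 : D1.Nonempty := ⟨N, hNC, hVN⟩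
  have hD2 : D2.Nonempty := ⟨⊥, hbotC, fun h => hbot (le_bot_iff.mp h)⟩
  have hB := (hcl D1 (fun K hK => hK.1) hD1).2
  have hA := (hcl D2 (fun K hK => hK.1) hD2).1
  set A := sSup D2 with hAdef
  set B := sInf D1 with hBdef
  have hVB : V ≤ B := le_sInf fun K hK => hK.2
  have hVA : ¬ V ≤ A := by
    intro h
    obtain ⟨F, hF⟩ := hF
    have hFA : ∀ f ∈ F, f ∈ A := fun f hf => h (by
      rw [hF]; exact Subgroup.subset_normalClosure (Finset.mem_coe.mpr hf))
    have hdir : DirectedOn (· ≤ ·) D2 := by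
      intro K hK K' hK'
      rcases hchain.total hK.1 hK'.1 with h1 | h1
      · exact ⟨K', hK', h1, le_rfl⟩
      · exact ⟨K, hK, le_rfl, h1⟩
    have h1 : ∀ F' : Finset G, (∀ f ∈ F', f ∈ A) → ∃ K ∈ D2, ∀ f ∈ F', f ∈ K := by
      intro F'
      induction F' using Finset.induction_on with
      | empty => intro _; obtain ⟨K, hK⟩ := hD2; exact ⟨K, hK, by simp⟩
      | insert a F' _ ih =>
        intro h2
        obtain ⟨K, hK, hKF⟩ := ih (fun f hf => h2 f (Finset.mem_insert_of_mem hf))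
        obtain ⟨K', hK', haK'⟩ := (Subgroup.mem_sSup_of_directedOn hD2 hdir).mp
          (h2 a (Finset.mem_insert_self _ _))
        obtain ⟨K'', hK'', h3, h4⟩ := hdir K hK K' hK'
        refine ⟨K'', hK'', fun f hf => ?_⟩
        rcases Finset.mem_insert.mp hf with rfl | hf
        · exact h4 haK'
        · exact h3 (hKF f hf)
    obtain ⟨K, hK, hKF⟩ := h1 F hFA
    apply hK.2
    rw [hF]
    have := hn K hK.1
    exact Subgroup.normalClosure_le_normal fun f hf => hKF f (Finset.mem_coe.mp hf)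
  have hAB : A ≤ B := by
    refine sSup_le fun K hK => le_sInf fun K' hK' => ?_
    rcases hchain.total hK.1 hK'.1 with h1 | h1
    · exact h1
    · exact absurd (hK'.2.trans h1) hK.2
  have hlt : A < B := lt_of_le_of_ne hAB fun h => hVA (h ▸ hVB)
  have hAn := hn A hA
  have hgood := hjump A hA B hB hlt (fun K hK => by
    by_cases h : V ≤ K
    · right; exact sInf_le ⟨hK, h⟩
    · left; exact le_sSup ⟨hK, h⟩)
  have hWV : V ⊓ A < V := lt_of_le_of_ne inf_le_left fun h => hVA (inf_eq_left.mp h)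
  obtain ⟨h1, h2⟩ := hW (V ⊓ A) inferInstance hWV
  obtain ⟨t1, t2⟩ := transfer (V := V) (A := A) hVB
  rcases hgood with h | h | ⟨p, hp, h⟩
  · apply hVA
    rw [← hperf]
    exact (Subgroup.commutator_mono hVB hVB).trans h
  · exact h (t1 h1)
  · obtain ⟨L, hL1, hL2, hL3, hL4⟩ := t2 p (h2 p hp)
    obtain ⟨χ, hχ⟩ := h L hL1 hL2 hL3
    exact hχ (hL4 χ)

end

end Pool.MP_79a731_al.H5
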