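import Pool.Agent.Work.MP_79a731_al.H5.Quot

/-!
The structure theorem for idempotent matrices.
-/

set_option autoImplicit false

namespace Pool.MP_79a731_al.H5

open Function
open scoped commutatorElement

noncomputable section

variable {G : Type*} [Group G] {n : ℕ}

/-- torsion-free abelian groups are locally p-indicable -/
lemma lpi_of_torsionfree (B : Subgroup G) (hc : ∀ a ∈ B, ∀ b ∈ B, a * b = b * a)
    (htf : ∀ a ∈ B, ∀ m : ℕ, m ≠ 0 → a ^ m = 1 → a = 1) (p : ℕ) [hp : Fact p.Prime] :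
    LPI p B := by
  classical
  intro L hLB hfg hL
  let _ : CommGroup L := { (inferInstance : Group L) with
    mul_comm := fun a b => Subtype.ext (hc a (hLB a.2) b (hLB b.2)) }
  have hLfg : Group.FG L := (Group.fg_iff_subgroup_fg L).mpr hfg
  have h1 : AddGroup.FG (Additive L) := GroupFG.iff_add_fg.mp hLfg
  have h2 : Module.Finite ℤ (Additive L) := Module.Finite.iff_addGroup_fg.mpr h1
  have h3 : IsAddTorsionFree (Additive L) := by
    refine ⟨fun m hm a b hab => ?_⟩
    have h4 : m • (a - b) = 0 := by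
      rw [smul_sub, sub_eq_zero]; exact hab
    have h5 : (((a - b).toMul : L) : G) ^ m = 1 := by
      have := congrArg (fun x : Additive L => ((x.toMul : L) : G)) h4
      simpa using this
    have h6 := htf _ (hLB (a - b).toMul.2) m hm h5
    have h7 : a - b = 0 := by
      have h8 : (a - b).toMul = (1 : L) := Subtype.ext h6
      exact h8
    exact sub_eq_zero.mp h7
  have h4 : Module.Free ℤ (Additive L) := inferInstance
  let b := Module.Free.chooseBasis ℤ (Additive L)
  have hnt : Nontrivial (Additive L) := (Subgroup.nontrivial_iff_ne_bot L).mpr hL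
  obtain ⟨i⟩ : Nonempty (Module.Free.ChooseBasisIndex ℤ (Additive L)) := b.index_nonempty
  refine ⟨fun g => if h : g ∈ L then ((b.repr (Additive.ofMul ⟨g, h⟩) i : ℤ) : ZMod p) else 0,
    ?_, ((b i).toMul : L), (b i).toMul.2, ?_⟩
  · intro x hx y hy
    beta_reduce
    rw [dif_pos hx, dif_pos hy, dif_pos (L.mul_mem hx hy)]
    have h5 : (Additive.ofMul (⟨x * y, L.mul_mem hx hy⟩ : L)) =
        Additive.ofMul (⟨x, hx⟩ : L) + Additive.ofMul (⟨y, hy⟩ : L) := rfl
    rw [h5, map_add, Finsupp.add_apply]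
    push_cast
    rfl
  · beta_reduce
    rw [dif_pos (b i).toMul.2]
    have h5 : (Additive.ofMul (⟨((b i).toMul : L), (b i).toMul.2⟩ : L)) = b i := rfl
    rw [h5, Module.Basis.repr_self, Finsupp.single_eq_same]
    simp

/-- finitely many classes containing all nontrivial elements of a copy of the rationals -/
def RatIn (U : Subgroup G) : Prop :=
  ∃ φ : Multiplicative ℚ →* G, Injective φ ∧ (∀ q, φ q ∈ U) ∧
    ∃ D : Set (ConjClasses G), D.Finite ∧ ∀ q, q ≠ 1 → ConjClasses.mk (φ q) ∈ D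

/-- the inverse of a class -/
def cinv : ConjClasses G → ConjClasses G :=
  Quotient.map (fun g => g⁻¹) (fun a b h => by
    have h' : IsConj a b := h
    change IsConj a⁻¹ b⁻¹
    rw [isConj_iff] at h' ⊢
    obtain ⟨c, hc⟩ := h'
    exact ⟨c, by rw [← hc]; group⟩)

/-- a finitely generated nontrivial subgroup without nontrivial characters of order p -/
def PPerf (p : ℕ) (U : Subgroup G) : Prop :=
  ∃ L : Subgroup G, L ≤ U ∧ L.FG ∧ L ≠ ⊥ ∧ ∀ χ : L →* Multiplicative (ZMod p), χ = 1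

lemma pperf_of_not_lpi {p : ℕ} {U : Subgroup G} (h : ¬ LPI p U) : PPerf p U := by
  classical
  unfold LPI at h
  push Not at h
  obtain ⟨L, h1, h2, h3, h4⟩ := h
  refine ⟨L, h1, h2, h3, fun χ => ?_⟩
  have h5 := h4 (fun g => if h : g ∈ L then (χ ⟨g, h⟩).toAdd else 0) (by
    intro a ha b hb
    rw [dif_pos ha, dif_pos hb, dif_pos (L.mul_mem ha hb)]
    have h6 : (⟨a * b, L.mul_mem ha hb⟩ : L) = ⟨a, ha⟩ * ⟨b, hb⟩ := rfl
    rw [h6, map_mul]
    rfl)
  ext a
  have h6 := h5 a a.2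
  rw [dif_pos a.2] at h6
  exact h6

lemma ratIn_of_quot {e : Mt G n} (he : e * e = e) (h0 : e ≠ 0) (V : Subgroup G) [V.Normal]
    (hV : mp n (QuotientGroup.mk' V) e = 0) : RatIn V := by
  classical
  obtain ⟨g, hg1, hg⟩ := exists_class he h0 V hV
  obtain ⟨φ, hφ, -, hφ'⟩ := exists_rat he hg hg1
  refine ⟨φ, hφ, fun q => ?_, ((XV e V) ∪ (XV e V).image cinv : Finset (ConjClasses G)),
    Finset.finite_toSet _, fun q hq => ?_⟩
  · by_cases hq : q = 1
    · rw [hq, map_one]; exact V.one_mem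
    · rcases hφ' q hq with h | h
      · exact (mem_XV.mp h).2
      · exact V.inv_mem_iff.mp (mem_XV.mp h).2
  · rw [Finset.mem_coe, Finset.mem_union]
    rcases hφ' q hq with h | h
    · left; exact h
    · right
      rw [Finset.mem_image]
      refine ⟨_, h, ?_⟩
      change ConjClasses.mk ((φ q)⁻¹)⁻¹ = _
      rw [inv_inv]

/-- a perfect normal subgroup with large quotients -/
theorem structure_mat {e : Mt G n} (he : e * e = e) (h0 : e ≠ 0) (N : Subgroup G) [N.Normal]
    (hN : mp n (QuotientGroup.mk' N) e = 0) :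
    ∃ (V : Subgroup G) (_ : V.Normal), V ≤ N ∧ V ≠ ⊥ ∧ ⁅V, V⁆ = V ∧
      (∃ F : Finset G, V = Subgroup.normalClosure (F : Set G)) ∧
      ∀ (W : Subgroup G) (_ : W.Normal), W < V → RatIn (V.map (QuotientGroup.mk' W)) ∧
        ∀ p : ℕ, p.Prime → PPerf p (V.map (QuotientGroup.mk' W)) := by
  classical
  obtain ⟨V, hVn, hVN, hV, hF, hmin⟩ := exists_min he N hN
  have key : ∀ (W : Subgroup G) (_ : W.Normal), W < V → RatIn (V.map (QuotientGroup.mk' W)) ∧
        ∀ p : ℕ, p.Prime → PPerf p (V.map (QuotientGroup.mk' W)) := by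
    intro W hW hWV
    have : (V.map (QuotientGroup.mk' W)).Normal :=
      Subgroup.Normal.map inferInstance _ (QuotientGroup.mk'_surjective W)
    have h1 := hmin W hW hWV
    have h2 := quot_quot W V hV
    refine ⟨ratIn_of_quot (mp_idem _ he) h1 _ h2, fun p hp => ?_⟩
    have := Fact.mk hp
    apply pperf_of_not_lpi
    intro hlpi
    exact h1 (eq_zero_of_lpi _ hlpi _ (mp_idem _ he) fun i j => congrFun (congrFun h2 i) j)
  have hbot : V ≠ ⊥ := by
    obtain ⟨g, hg1, hg⟩ := exists_class he h0 V hV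
    intro h
    apply hg1
    rw [← Subgroup.mem_bot, ← h]
    exact (mem_XV.mp hg).2
  refine ⟨V, hVn, hVN, hbot, ?_, hF, key⟩
  -- perfectness
  by_contra hne
  set W : Subgroup G := ⁅V, V⁆ with hWdef
  have hWle : W ≤ V := Subgroup.commutator_le_left V V
  have hWV : W < V := lt_of_le_of_ne hWle hne
  have hWn : W.Normal := inferInstance
  have hcomm : ∀ a ∈ V, ∀ b ∈ V, Commute (a : G ⧸ W) (b : G ⧸ W) := by
    intro a ha b hb
    change (a : G ⧸ W) * (b : G ⧸ W) = (b : G ⧸ W) * (a : G ⧸ W)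
    rw [← QuotientGroup.mk_mul, ← QuotientGroup.mk_mul, QuotientGroup.eq]
    have h1 : (a * b)⁻¹ * (b * a) = ⁅b⁻¹, a⁻¹⁆ := by
      rw [commutatorElement_def]; group
    rw [h1]
    exact Subgroup.commutator_mem_commutator (V.inv_mem hb) (V.inv_mem ha)
  let T : Subgroup G :=
    { carrier := {a | a ∈ V ∧ ∃ m : ℕ, m ≠ 0 ∧ (a : G ⧸ W) ^ m = 1}
      one_mem' := ⟨V.one_mem, 1, one_ne_zero, by simp⟩
      mul_mem' := by
        rintro a b ⟨ha, m, hm, ham⟩ ⟨hb, k, hk, hbk⟩
        refine ⟨V.mul_mem ha hb, m * k, mul_ne_zero hm hk, ?_⟩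
        rw [QuotientGroup.mk_mul, (hcomm a ha b hb).mul_pow, pow_mul, ham, one_pow, one_mul,
          mul_comm, pow_mul, hbk, one_pow]
      inv_mem' := by
        rintro a ⟨ha, m, hm, ham⟩
        refine ⟨V.inv_mem ha, m, hm, ?_⟩
        rw [QuotientGroup.mk_inv, inv_pow, ham, inv_one] }
  have hTmem : ∀ a, a ∈ T ↔ a ∈ V ∧ ∃ m : ℕ, m ≠ 0 ∧ (a : G ⧸ W) ^ m = 1 := fun a => Iff.rfl
  have hTn : T.Normal := by
    refine ⟨fun a ha g => ?_⟩
    rw [hTmem] at ha ⊢
    obtain ⟨ha, m, hm, ham⟩ := ha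
    refine ⟨hVn.conj_mem a ha g, m, hm, ?_⟩
    rw [QuotientGroup.mk_mul, QuotientGroup.mk_mul, QuotientGroup.mk_inv, conj_pow, ham, mul_one,
      mul_inv_cancel]
  have hWT : W ≤ T := by
    intro a ha
    rw [hTmem]
    refine ⟨hWle ha, 1, one_ne_zero, ?_⟩
    rw [pow_one]
    exact (QuotientGroup.eq_one_iff a).mpr ha
  have hTV : T ≤ V := fun a ha => ((hTmem a).mp ha).1
  by_cases hTeq : T = V
  · obtain ⟨φ, hφ, hφV, -⟩ := (key W hWn hWV).1
    obtain ⟨v, hv, hv'⟩ := hφV (Multiplicative.ofAdd 1)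
    have hvT : v ∈ T := by rw [hTeq]; exact hv
    obtain ⟨-, m, hm, hvm⟩ := (hTmem v).mp hvT
    have h1 : φ (Multiplicative.ofAdd (m : ℚ)) = 1 := by
      have h2 : (Multiplicative.ofAdd (m : ℚ)) = (Multiplicative.ofAdd (1 : ℚ)) ^ m := by
        rw [← ofAdd_nsmul, nsmul_eq_mul, mul_one]
      rw [h2, map_pow, ← hv']
      exact hvm
    rw [← map_one φ] at h1
    have h2 := hφ h1
    have h3 : (m : ℚ) = 0 := h2
    exact hm (by exact_mod_cast h3)
  · have hTlt : T < V := lt_of_le_of_ne hTV hTeq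
    have := Fact.mk Nat.prime_two
    obtain ⟨L, hL1, hL2, hL3, hL4⟩ := (key T hTn hTlt).2 2 Nat.prime_two
    have hl : LPI 2 (V.map (QuotientGroup.mk' T)) := by
      apply lpi_of_torsionfree
      · rintro _ ⟨a, ha, rfl⟩ _ ⟨b, hb, rfl⟩
        rw [← map_mul, ← map_mul]
        change ((a * b : G) : G ⧸ T) = ((b * a : G) : G ⧸ T)
        rw [QuotientGroup.eq]
        apply hWT
        have h1 : (a * b)⁻¹ * (b * a) = ⁅b⁻¹, a⁻¹⁆ := by
          rw [commutatorElement_def]; group
        rw [h1]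
        exact Subgroup.commutator_mem_commutator (V.inv_mem hb) (V.inv_mem ha)
      · rintro _ ⟨a, ha, rfl⟩ m hm ham
        rw [← map_pow] at ham
        have h1 : a ^ m ∈ T := (QuotientGroup.eq_one_iff _).mp ham
        obtain ⟨-, k, hk, hak⟩ := (hTmem _).mp h1
        refine (QuotientGroup.eq_one_iff _).mpr ((hTmem _).mpr ⟨ha, m * k, mul_ne_zero hm hk, ?_⟩)
        rw [pow_mul, ← QuotientGroup.mk_pow]
        exact hak
    obtain ⟨χ, hχ, a, ha, hχa⟩ := hl L hL1 hL2 hL3
    let χ' : L →* Multiplicative (ZMod 2) :=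
      { toFun := fun x => Multiplicative.ofAdd (χ x)
        map_one' := by
          have h := hχ 1 L.one_mem 1 L.one_mem
          rw [mul_one] at h
          exact left_eq_add.mp h
        map_mul' := fun x y => by
          change Multiplicative.ofAdd (χ ((x : G ⧸ T) * (y : G ⧸ T))) = _
          rw [hχ x x.2 y y.2]
          rfl }
    have h1 := hL4 χ'
    have h2 := congrArg (fun f : L →* Multiplicative (ZMod 2) => (f ⟨a, ha⟩).toAdd) h1
    exact hχa h2

end

end Pool.MP_79a731_al.H5
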