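import Pool.Agent.Work.MP_79a731_al.H5.Rot

/-!
The Hattori-Stallings rank of an idempotent matrix over an integral group ring is invariant under
the power maps.
-/

set_option autoImplicit false

namespace Pool.MP_79a731_al.H5

open Function Finsupp

noncomputable section

variable {G : Type*} [Group G] {n : ℕ}

/-- the class of a group ring element -/
def cc : MonoidAlgebra ℤ G →+ (ConjClasses G →₀ ℤ) :=
  (Finsupp.mapDomain.addMonoidHom ConjClasses.mk).comp
    (MonoidAlgebra.coeffAddEquiv : MonoidAlgebra ℤ G ≃+ (G →₀ ℤ)).toAddMonoidHom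

lemma cc_apply (x : MonoidAlgebra ℤ G) : cc x = Finsupp.mapDomain ConjClasses.mk x.coeff := rfl

lemma cc_single (g : G) (r : ℤ) : cc (MonoidAlgebra.single g r) =
    Finsupp.single (ConjClasses.mk g) r := by
  rw [cc_apply, MonoidAlgebra.coeff_single, Finsupp.mapDomain_single]

lemma cc_mul_comm (x y : MonoidAlgebra ℤ G) : cc (x * y) = cc (y * x) := by
  induction x using MonoidAlgebra.induction_linear with
  | zero => simp
  | add x x' hx hx' => rw [add_mul, mul_add, map_add, map_add, hx, hx']
  | single g r =>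
    induction y using MonoidAlgebra.induction_linear with
    | zero => simp
    | add x x' hx hx' => rw [add_mul, mul_add, map_add, map_add, hx, hx']
    | single h s =>
      rw [MonoidAlgebra.single_mul_single, MonoidAlgebra.single_mul_single, cc_single, cc_single,
        mul_comm r s]
      congr 1
      rw [ConjClasses.mk_eq_mk_iff_isConj, isConj_iff]
      exact ⟨g⁻¹, by group⟩

/-- the Hattori-Stallings rank -/
def hs : Mt G n →+ (ConjClasses G →₀ ℤ) where
  toFun x := ∑ i, cc (x i i)
  map_zero' := by simp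
  map_add' x y := by simp [Finset.sum_add_distrib]

lemma hs_apply (x : Mt G n) : hs x = ∑ i, cc (x i i) := rfl

lemma hs_mul_comm (x y : Mt G n) : hs (x * y) = hs (y * x) := by
  simp only [hs_apply, Matrix.mul_apply, map_sum]
  rw [Finset.sum_comm]
  exact Finset.sum_congr rfl fun i _ => Finset.sum_congr rfl fun j _ => cc_mul_comm _ _

lemma hs_zsmul (c : ℤ) (x : Mt G n) : hs (c • x) = c • hs x := map_zsmul hs c x

/-- the power map on conjugacy classes -/
def cpow (m : ℕ) : ConjClasses G → ConjClasses G :=
  Quotient.map (fun g => g ^ m) (fun _ _ h => h.pow m)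

lemma cpow_mk (m : ℕ) (g : G) : cpow m (ConjClasses.mk g) = ConjClasses.mk (g ^ m) := rfl

/-- monomial matrices -/
def mon (a : Fin n × Fin n × G) : Mt G n :=
  Matrix.single a.1 a.2.1 (MonoidAlgebra.single a.2.2 1)

/-- products of monomial matrices -/
def IsMon (x : Mt G n) : Prop := x = 0 ∨ ∃ a, x = mon a

lemma IsMon.mul {x y : Mt G n} (hx : IsMon x) (hy : IsMon y) : IsMon (x * y) := by
  rcases hx with rfl | ⟨a, rfl⟩
  · left; simp
  rcases hy with rfl | ⟨b, rfl⟩
  · left; simp
  by_cases h : a.2.1 = b.1
  · right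
    refine ⟨(a.1, b.2.1, a.2.2 * b.2.2), ?_⟩
    unfold mon
    rw [h, Matrix.single_mul_single_same, MonoidAlgebra.single_mul_single, mul_one]
  · left
    unfold mon
    exact Matrix.single_mul_single_of_ne _ _ _ _ h _

lemma IsMon.hs_pow {x : Mt G n} (hx : IsMon x) (p : ℕ) (hp : 2 ≤ p) :
    hs (x ^ p) = Finsupp.mapDomain (cpow p) (hs x) := by
  rcases hx with rfl | ⟨⟨i, j, g⟩, rfl⟩
  · rw [zero_pow (by omega), map_zero, Finsupp.mapDomain_zero]
  by_cases h : i = j
  · subst h
    have h1 : ∀ m : ℕ, (mon (i, i, g) : Mt G n) ^ (m + 1) = mon (i, i, g ^ (m + 1)) := by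
      intro m
      induction m with
      | zero => simp
      | succ m ih =>
        rw [pow_succ, ih]
        unfold mon
        rw [Matrix.single_mul_single_same, MonoidAlgebra.single_mul_single, mul_one,
          ← pow_succ]
    have h2 : ∀ h : G, hs (mon (i, i, h) : Mt G n) = Finsupp.single (ConjClasses.mk h) 1 := by
      intro h
      rw [hs_apply, Finset.sum_eq_single i]
      · simp [mon, cc_single]
      · intro b _ hb
        simp [mon, hb.symm]
      · intro h; exact absurd (Finset.mem_univ _) h
    obtain ⟨m, rfl⟩ : ∃ m, p = m + 1 := ⟨p - 1, by omega⟩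
    rw [h1, h2, h2, Finsupp.mapDomain_single, cpow_mk]
  · have h1 : (mon (i, j, g) : Mt G n) ^ p = 0 := by
      obtain ⟨m, rfl⟩ : ∃ m, p = m + 2 := ⟨p - 2, by omega⟩
      rw [pow_add, sq]
      have : (mon (i, j, g) : Mt G n) * mon (i, j, g) = 0 := by
        unfold mon
        exact Matrix.single_mul_single_of_ne _ _ _ _ (Ne.symm h) _
      rw [this, mul_zero]
    have h2 : hs (mon (i, j, g) : Mt G n) = 0 := by
      rw [hs_apply]
      refine Finset.sum_eq_zero fun k _ => ?_
      have : (mon (i, j, g) : Mt G n) k k = 0 := by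
        unfold mon
        apply Matrix.single_apply_of_ne
        rintro ⟨h3, h4⟩
        exact h (h3.trans h4.symm)
      rw [this, map_zero]
    rw [h1, h2, map_zero, Finsupp.mapDomain_zero]

/-! ### words -/

section words

variable {ι : Type*}

/-- the periodic extension of a word -/
def ext {N : ℕ} [NeZero N] (w : Fin N → ι) (t : ℕ) : ι := w (Fin.ofNat N t)

lemma ext_add {N : ℕ} [NeZero N] (w : Fin N → ι) (t : ℕ) : ext w (t + N) = ext w t := by
  unfold ext
  congr 1
  apply Fin.ext
  simp [Fin.ofNat]

lemma ext_val {N : ℕ} [NeZero N] (w : Fin N → ι) (i : Fin N) : ext w i = w i := by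
  unfold ext
  congr 1
  apply Fin.ext
  simp [Fin.ofNat, Nat.mod_eq_of_lt i.2]

/-- rotation of words -/
def rot (ι : Type*) (N : ℕ) [NeZero N] : Equiv.Perm (Fin N → ι) where
  toFun w i := w (i + 1)
  invFun w i := w (i - 1)
  left_inv w := by funext i; simp
  right_inv w := by funext i; simp

lemma ext_rot {N : ℕ} [NeZero N] (w : Fin N → ι) (t : ℕ) : ext (rot ι N w) t = ext w (t + 1) := by
  unfold ext
  change w (Fin.ofNat N t + 1) = _
  congr 1
  apply Fin.ext
  simp [Fin.ofNat, Fin.val_add]

lemma ext_rot_pow {N : ℕ} [NeZero N] (w : Fin N → ι) (L t : ℕ) :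
    ext ((rot ι N ^ L) w) t = ext w (t + L) := by
  induction L generalizing t with
  | zero => rfl
  | succ L ih =>
    rw [pow_succ', Equiv.Perm.mul_apply, ext_rot, ih]
    congr 1
    ring

lemma rot_pow_eq {N : ℕ} [NeZero N] (w : Fin N → ι) (L : ℕ) :
    (rot ι N ^ L) w = w ↔ ∀ t, ext w (t + L) = ext w t := by
  constructor
  · intro h t
    rw [← ext_rot_pow, h]
  · intro h
    funext i
    rw [← ext_val ((rot ι N ^ L) w) i, ext_rot_pow, h, ext_val]

/-- the coefficient of a word -/
def cf (α : ι → ℤ) (u : ℕ → ι) (L : ℕ) : ℤ := ∏ t ∈ Finset.range L, α (u t)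

/-- the product of a word -/
def prd {S : Type*} [Monoid S] (X : ι → S) (u : ℕ → ι) (L : ℕ) : S :=
  ((List.range L).map fun t => X (u t)).prod

lemma cf_add (α : ι → ℤ) (u : ℕ → ι) (a b : ℕ) :
    cf α u (a + b) = cf α u a * cf α (fun t => u (a + t)) b := by
  unfold cf; rw [Finset.prod_range_add]

lemma prd_add {S : Type*} [Monoid S] (X : ι → S) (u : ℕ → ι) (a b : ℕ) :
    prd X u (a + b) = prd X u a * prd X (fun t => u (a + t)) b := by
  unfold prd
  rw [List.range_add, List.map_append, List.prod_append, List.map_map]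
  rfl

lemma per_mul {u : ℕ → ι} {L : ℕ} (h : ∀ t, u (t + L) = u t) (q t : ℕ) :
    u (L * q + t) = u t := by
  induction q with
  | zero => simp
  | succ q ih =>
    have : L * (q + 1) + t = (L * q + t) + L := by ring
    rw [this, h, ih]

lemma cf_per (α : ι → ℤ) {u : ℕ → ι} {L : ℕ} (h : ∀ t, u (t + L) = u t) (q : ℕ) :
    cf α u (L * q) = cf α u L ^ q := by
  induction q with
  | zero => simp [cf]
  | succ q ih =>
    rw [mul_add, mul_one, cf_add, ih, pow_succ]
    congr 1
    unfold cf
    exact Finset.prod_congr rfl fun t _ => by beta_reduce; rw [per_mul h]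

lemma prd_per {S : Type*} [Monoid S] (X : ι → S) {u : ℕ → ι} {L : ℕ} (h : ∀ t, u (t + L) = u t)
    (q : ℕ) : prd X u (L * q) = prd X u L ^ q := by
  induction q with
  | zero => simp [prd]
  | succ q ih =>
    rw [mul_add, mul_one, prd_add, ih, pow_succ]
    congr 1
    unfold prd
    congr 1
    exact List.map_congr_left fun t _ => by beta_reduce; rw [per_mul h]

lemma cf_shift (α : ι → ℤ) {u : ℕ → ι} {L : ℕ} (h : ∀ t, u (t + L) = u t) :
    cf α (fun t => u (t + 1)) L = cf α u L := by
  cases L with
  | zero => rfl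
  | succ L =>
    unfold cf
    rw [Finset.prod_range_succ, Finset.prod_range_succ']
    congr 2
    have := h 0
    rw [zero_add] at this
    exact this

lemma prd_shift (X : ι → Mt G n) {u : ℕ → ι} {L : ℕ} (h : ∀ t, u (t + L) = u t) :
    hs (prd X (fun t => u (t + 1)) L) = hs (prd X u L) := by
  cases L with
  | zero => rfl
  | succ L =>
    have h1 : prd X (fun t => u (t + 1)) (L + 1) = prd X (fun t => u (t + 1)) L * X (u 0) := by
      rw [prd_add]
      congr 1
      have := h 0
      rw [zero_add] at this
      simp [prd, this]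
    have h2 : prd X u (L + 1) = X (u 0) * prd X (fun t => u (t + 1)) L := by
      rw [add_comm, prd_add]
      congr 1
      · simp [prd]
      · unfold prd
        congr 1
        exact List.map_congr_left fun t _ => by beta_reduce; rw [add_comm]
    rw [h1, h2, hs_mul_comm]

/-- expansion of a power of a sum -/
lemma sum_pow_words [Fintype ι] {S : Type*} [Ring S] (α : ι → ℤ) (X : ι → S) (N : ℕ) [NeZero N] :
    (∑ a, α a • X a) ^ N = ∑ w : Fin N → ι, cf α (ext w) N • prd X (ext w) N := by
  classical
  have key : ∀ N : ℕ, (∑ a, α a • X a) ^ N = ∑ w : Fin N → ι,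
      (∏ i, α (w i)) • ((List.finRange N).map fun i => X (w i)).prod := by
    intro N
    induction N with
    | zero => simp
    | succ N ih =>
      rw [pow_succ', ih, ← (Fin.consEquiv fun _ : Fin (N + 1) => ι).sum_comp,
        Fintype.sum_prod_type, Finset.sum_mul_sum]
      refine Finset.sum_congr rfl fun a _ => Finset.sum_congr rfl fun w _ => ?_
      rw [Fin.prod_univ_succ, List.finRange_succ, List.map_cons, List.prod_cons, List.map_map]
      simp only [Fin.consEquiv_apply, Fin.cons_zero, Fin.cons_succ, Function.comp_def]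
      rw [smul_mul_smul_comm]
  rw [key]
  refine Finset.sum_congr rfl fun w _ => ?_
  congr 1
  · unfold cf
    rw [← Fin.prod_univ_eq_prod_range (fun t => α (ext w t))]
    exact Finset.prod_congr rfl fun i _ => by rw [ext_val]
  · unfold prd
    rw [← List.map_coe_finRange_eq_range, List.map_map]
    congr 1
    exact List.map_congr_left fun i _ => by simp only [Function.comp_def]; rw [ext_val]

end words

end

end Pool.MP_79a731_al.H5
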