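import Pool.Agent.Work.MP_79a731_al.H5.Frob

/-!
The Hattori-Stallings rank of an idempotent matrix over an integral group ring is invariant under
the power maps: the congruences.
-/

set_option autoImplicit false

namespace Pool.MP_79a731_al.H5

open Function Finsupp

noncomputable section

variable {G : Type*} [Group G] {n : ℕ} {ι : Type*}

/-- words of smaller length as periodic words -/
def per {L : ℕ} [NeZero L] (N : ℕ) (u : Fin L → ι) : Fin N → ι := fun i => ext u i

lemma ext_per {L N : ℕ} [NeZero L] [NeZero N] (h : L ∣ N) (u : Fin L → ι) (t : ℕ) :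
    ext (per N u) t = ext u t := by
  unfold per
  change u (Fin.ofNat L ((Fin.ofNat N t : Fin N) : ℕ)) = u (Fin.ofNat L t)
  congr 1
  apply Fin.ext
  simp [Fin.ofNat, Nat.mod_mod_of_dvd t h]

lemma per_ext {L N : ℕ} [NeZero L] [NeZero N] (w : Fin N → ι)
    (hw : ∀ t, ext w (t + L) = ext w t) : per N (fun i : Fin L => ext w i) = w := by
  funext i
  rw [← ext_val w i]
  change ext w ((Fin.ofNat L (i : ℕ) : Fin L) : ℕ) = _
  have h1 : ((Fin.ofNat L (i : ℕ) : Fin L) : ℕ) = (i : ℕ) % L := rfl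
  rw [h1]
  conv_rhs => rw [← Nat.div_add_mod (i : ℕ) L]
  rw [per_mul hw]

lemma rot_mul_pow {N : ℕ} [NeZero N] (w : Fin N → ι) (L : ℕ) :
    (rot ι N ^ L) (rot ι N w) = rot ι N w ↔ (rot ι N ^ L) w = w := by
  have h2 : (rot ι N ^ L) (rot ι N w) = rot ι N ((rot ι N ^ L) w) := by
    rw [← Equiv.Perm.mul_apply, ← Equiv.Perm.mul_apply, (Commute.refl (rot ι N)).pow_left _ |>.eq]
  rw [h2, (rot ι N).injective.eq_iff]

lemma fermat (p : ℕ) (hp : p.Prime) (c : ℤ) : (p : ℤ) ∣ c ^ p - c := by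
  have := Fact.mk hp
  rw [← ZMod.intCast_zmod_eq_zero_iff_dvd]
  push_cast
  rw [ZMod.pow_card, sub_self]

lemma cf_pp (α : ι → ℤ) {u : ℕ → ι} (p j i : ℕ) (h : ∀ t, u (t + p ^ j) = u t) :
    cf α u (p ^ (j + i)) = cf α u (p ^ j) ^ p ^ i := by
  rw [pow_add, cf_per α h]

lemma per_pp {u : ℕ → ι} (p j i : ℕ) (h : ∀ t, u (t + p ^ j) = u t) (t : ℕ) :
    u (t + p ^ (j + i)) = u t := by
  rw [pow_add, add_comm, per_mul h]

lemma prd_isMon (X : ι → Mt G n) (hX : ∀ a, IsMon (X a)) (u : ℕ → ι) (L : ℕ) (hL : 0 < L) :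
    IsMon (prd X u L) := by
  induction L with
  | zero => omega
  | succ L ih =>
    rw [prd_add]
    by_cases h : L = 0
    · subst h
      simpa [prd] using hX (u 0)
    · refine (ih (by omega)).mul ?_
      simpa [prd] using hX _

/-- the congruence for the sum of monomial matrices -/
lemma hs_cong_aux [Fintype ι] (α : ι → ℤ) (X : ι → Mt G n) (hX : ∀ a, IsMon (X a)) (p : ℕ)
    (hp : p.Prime) (k : ℕ) : ∃ m, hs ((∑ a, α a • X a) ^ p ^ (k + 1)) -
      Finsupp.mapDomain (cpow p) (hs ((∑ a, α a • X a) ^ p ^ k)) = ((p : ℤ) ^ (k + 1)) • m := by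
  classical
  have hp0 := hp.pos
  have : NeZero (p ^ (k + 1)) := ⟨(pow_pos hp0 _).ne'⟩
  have : NeZero (p ^ k) := ⟨(pow_pos hp0 _).ne'⟩
  have hdvd : p ^ k ∣ p ^ (k + 1) := pow_dvd_pow p (by omega)
  let f : (Fin (p ^ (k + 1)) → ι) → (ConjClasses G →₀ ℤ) := fun w =>
    cf α (ext w) (p ^ (k + 1)) • hs (prd X (ext w) (p ^ (k + 1))) -
      (if (rot ι (p ^ (k + 1)) ^ p ^ k) w = w then
        cf α (ext w) (p ^ k) • hs (prd X (ext w) (p ^ (k + 1))) else 0)
  -- the second sum
  have h2 : Finsupp.mapDomain (cpow p) (hs ((∑ a, α a • X a) ^ p ^ k)) =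
      ∑ w : Fin (p ^ (k + 1)) → ι, (if (rot ι (p ^ (k + 1)) ^ p ^ k) w = w then
        cf α (ext w) (p ^ k) • hs (prd X (ext w) (p ^ (k + 1))) else 0) := by
    rw [sum_pow_words, map_sum, ← Finsupp.mapDomain.addMonoidHom_apply, map_sum,
      ← Finset.sum_filter]
    refine Finset.sum_bij' (fun u _ => per (p ^ (k + 1)) u) (fun w _ i => ext w i) ?_ ?_ ?_ ?_ ?_
    · intro u _
      rw [Finset.mem_filter]
      refine ⟨Finset.mem_univ _, ?_⟩
      rw [rot_pow_eq]
      intro t
      rw [ext_per hdvd, ext_per hdvd, ext_add]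
    · intro w _; exact Finset.mem_univ _
    · intro u _
      funext i
      rw [ext_per hdvd, ext_val]
    · intro w hw
      rw [Finset.mem_filter, rot_pow_eq] at hw
      exact per_ext w hw.2
    · intro u _
      have h3 : ext (per (p ^ (k + 1)) u) = ext u := funext fun t => ext_per hdvd u t
      rw [h3, hs_zsmul, map_zsmul]
      congr 1
      rw [pow_succ, prd_per X (ext_add u), (prd_isMon X hX _ _ (pow_pos hp0 _)).hs_pow p hp.two_le]
      rfl
  have h3 : hs ((∑ a, α a • X a) ^ p ^ (k + 1)) -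
      Finsupp.mapDomain (cpow p) (hs ((∑ a, α a • X a) ^ p ^ k)) = ∑ w, f w := by
    rw [h2, sum_pow_words, map_sum, ← Finset.sum_sub_distrib]
    exact Finset.sum_congr rfl fun w _ => by rw [hs_zsmul]
  rw [h3]
  refine sum_rot p hp (k + 1) (k + 1) le_rfl (rot ι (p ^ (k + 1))) ?_ f ?_ ?_
  · ext1 w
    exact (rot_pow_eq w _).mpr (ext_add w)
  · intro w
    have h4 : ext (rot ι _ w) = fun t => ext w (t + 1) := funext fun t => ext_rot w t
    simp only [f]
    rw [h4, cf_shift α (ext_add w), prd_shift X (ext_add w)]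
    simp only [rot_mul_pow]
    congr 1
    by_cases h5 : (rot ι (p ^ (k + 1)) ^ p ^ k) w = w
    · rw [if_pos h5, if_pos h5, cf_shift α ((rot_pow_eq _ _).mp h5)]
    · rw [if_neg h5, if_neg h5]
  · intro w j hj hw
    by_cases hjk : j = k + 1
    · subst hjk
      exact ⟨f w, by simp⟩
    have hj' : j ≤ k := by omega
    rw [rot_pow_eq] at hw
    obtain ⟨i, rfl⟩ : ∃ i, k = j + i := ⟨k - j, by omega⟩
    have h5 : (rot ι (p ^ (j + i + 1)) ^ p ^ (j + i)) w = w := by
      rw [rot_pow_eq]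
      exact per_pp p j i hw
    have h6 : cf α (ext w) (p ^ (j + i)) = cf α (ext w) (p ^ j) ^ p ^ i := cf_pp α p j i hw
    have h7 : cf α (ext w) (p ^ (j + i + 1)) = (cf α (ext w) (p ^ j) ^ p) ^ p ^ i := by
      rw [← pow_mul, ← pow_succ']
      exact cf_pp α p j (i + 1) hw
    obtain ⟨c, hc⟩ := dvd_sub_pow_of_dvd_sub (fermat p hp (cf α (ext w) (p ^ j))) i
    refine ⟨c • hs (prd X (ext w) (p ^ (j + i + 1))), ?_⟩
    simp only [f]
    rw [if_pos h5, ← sub_smul, h6, h7, hc, smul_smul]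
    congr 3
    omega

/-- every matrix is a combination of monomial matrices -/
lemma exists_mon (x : Mt G n) : ∃ (s : Finset (Fin n × Fin n × G)) (α : s → ℤ),
    x = ∑ a, α a • mon (a : Fin n × Fin n × G) := by
  classical
  have h1 : x ∈ Submodule.span ℤ (Set.range (mon : Fin n × Fin n × G → Mt G n)) := by
    rw [Matrix.matrix_eq_sum_single x]
    refine Submodule.sum_mem _ fun i _ => Submodule.sum_mem _ fun j _ => ?_
    generalize x i j = y
    induction y using MonoidAlgebra.induction_linear with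
    | zero => simp
    | add y z hy hz => rw [Matrix.single_add]; exact Submodule.add_mem _ hy hz
    | single g r =>
      have h2 : (Matrix.single i j (MonoidAlgebra.single g r) : Mt G n) = r • mon (i, j, g) := by
        unfold mon
        rw [Matrix.smul_single]
        congr 1
        ext k
        simp
      rw [h2]
      exact Submodule.smul_mem _ _ (Submodule.subset_span ⟨_, rfl⟩)
  rw [Finsupp.mem_span_range_iff_exists_finsupp] at h1
  obtain ⟨c, hc⟩ := h1
  refine ⟨c.support, fun a => c a, ?_⟩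
  rw [← hc, Finsupp.sum]
  exact (Finset.sum_coe_sort c.support (fun a => c a • (mon a : Mt G n))).symm

lemma hs_cong (x : Mt G n) (p : ℕ) (hp : p.Prime) (k : ℕ) : ∃ m, hs (x ^ p ^ (k + 1)) -
      Finsupp.mapDomain (cpow p) (hs (x ^ p ^ k)) = ((p : ℤ) ^ (k + 1)) • m := by
  obtain ⟨s, α, rfl⟩ := exists_mon x
  exact hs_cong_aux α (fun a : s => mon (a : Fin n × Fin n × G)) (fun a => Or.inr ⟨_, rfl⟩) p hp k

/-- Frobenius invariance for idempotents -/
theorem hs_frob_prime (e : Mt G n) (he : e * e = e) (p : ℕ) (hp : p.Prime) :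
    Finsupp.mapDomain (cpow p) (hs e) = hs e := by
  have hi : IsIdempotentElem e := he
  have h1 : ∀ k : ℕ, ∃ m : ConjClasses G →₀ ℤ,
      hs e - Finsupp.mapDomain (cpow p) (hs e) = ((p : ℤ) ^ (k + 1)) • m := by
    intro k
    obtain ⟨m, hm⟩ := hs_cong e p hp k
    refine ⟨m, ?_⟩
    rw [hi.pow_eq (pow_pos hp.pos _).ne', hi.pow_eq (pow_pos hp.pos _).ne'] at hm
    exact hm
  have h2 : hs e - Finsupp.mapDomain (cpow p) (hs e) = 0 := by
    ext c
    rw [Finsupp.zero_apply]
    by_contra hne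
    set z := (hs e - Finsupp.mapDomain (cpow p) (hs e)) c with hz
    obtain ⟨m, hm⟩ := h1 z.natAbs
    have h3 : (p : ℤ) ^ (z.natAbs + 1) ∣ z := ⟨m c, by
      have h6 := congrArg (fun y : ConjClasses G →₀ ℤ => y c) hm
      exact h6⟩
    have h4 := Int.natAbs_dvd_natAbs.mpr h3
    rw [Int.natAbs_pow, Int.natAbs_natCast] at h4
    have h5 := Nat.le_of_dvd (Int.natAbs_pos.mpr hne) h4
    have h6 : z.natAbs + 1 < p ^ (z.natAbs + 1) := Nat.lt_pow_self hp.one_lt
    omega
  exact (sub_eq_zero.mp h2).symm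

lemma cpow_mul (a b : ℕ) (c : ConjClasses G) : cpow (a * b) c = cpow b (cpow a c) := by
  induction c using Quotient.inductionOn with
  | h g => exact congrArg ConjClasses.mk (pow_mul g a b)

lemma cpow_one (c : ConjClasses G) : cpow 1 c = c := by
  induction c using Quotient.inductionOn with
  | h g => exact congrArg ConjClasses.mk (pow_one g)

theorem hs_frob (e : Mt G n) (he : e * e = e) (m : ℕ) (hm : m ≠ 0) :
    Finsupp.mapDomain (cpow m) (hs e) = hs e := by
  induction m using Nat.recOnMul with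
  | zero => exact absurd rfl hm
  | one =>
    have : (cpow 1 : ConjClasses G → ConjClasses G) = id := funext cpow_one
    rw [this, Finsupp.mapDomain_id]
  | prime p hp => exact hs_frob_prime e he p hp
  | mul a b ha hb =>
    have h1 : (cpow (a * b) : ConjClasses G → ConjClasses G) = cpow b ∘ cpow a :=
      funext fun c => cpow_mul a b c
    rw [h1, Finsupp.mapDomain_comp, ha (by rintro rfl; simp at hm), hb (by rintro rfl; simp at hm)]

end

end Pool.MP_79a731_al.H5
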