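import Mathlib

/-!
Kaplansky's theorem for idempotent matrices over integral group rings: the trace is non-negative,
and it vanishes only for the zero matrix.
-/

set_option autoImplicit false

namespace Pool.MP_79a731_al.H5

open scoped ENNReal
open RealInnerProductSpace

noncomputable section

variable {G : Type*} [Group G] {n : ℕ}

/-- matrices over the integral group ring -/
abbrev Mt (G : Type*) [Group G] (n : ℕ) : Type _ := Matrix (Fin n) (Fin n) (MonoidAlgebra ℤ G)

/-- the trace -/
def tr (e : Mt G n) : ℤ := ∑ i, (e i i).coeff 1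

/-- the Hilbert space -/
abbrev HH (G : Type*) (n : ℕ) := lp (fun _ : G × Fin n => ℝ) 2

/-- composition with a permutation of the indices -/
def comp {ι : Type*} (σ : Equiv.Perm ι) : lp (fun _ : ι => ℝ) 2 →ₗ[ℝ] lp (fun _ : ι => ℝ) 2 where
  toFun x := ⟨fun a => x (σ a), by
    have h := lp.memℓp x
    have h1 := (memℓp_gen_iff (by norm_num : 0 < (2 : ℝ≥0∞).toReal)).mp h
    exact (memℓp_gen_iff (by norm_num : 0 < (2 : ℝ≥0∞).toReal)).mpr
      (h1.comp_injective σ.injective)⟩
  map_add' x y := by ext a; rfl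
  map_smul' c x := by ext a; rfl

lemma comp_apply {ι : Type*} (σ : Equiv.Perm ι) (x : lp (fun _ : ι => ℝ) 2) (a : ι) :
    comp σ x a = x (σ a) := rfl

lemma comp_inner {ι : Type*} (σ : Equiv.Perm ι) (x y : lp (fun _ : ι => ℝ) 2) :
    ⟪comp σ x, comp σ y⟫ = ⟪x, y⟫ := by
  rw [lp.inner_eq_tsum, lp.inner_eq_tsum]
  exact σ.tsum_eq (fun a => ⟪x a, y a⟫)

lemma comp_symm {ι : Type*} (σ : Equiv.Perm ι) (x : lp (fun _ : ι => ℝ) 2) :
    comp σ (comp σ.symm x) = x := by
  ext a; simp [comp_apply]

/-- left translation of the indices -/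
def sig (n : ℕ) (g : G) : Equiv.Perm (G × Fin n) where
  toFun a := (g⁻¹ * a.1, a.2)
  invFun a := (g * a.1, a.2)
  left_inv a := by simp
  right_inv a := by simp

/-- the row `g • e_i` as a vector of the Hilbert space -/
def row (e : Mt G n) (g : G) (i : Fin n) : HH G n :=
  ⟨fun a => ((e i a.2).coeff (g⁻¹ * a.1) : ℝ), by
    classical
    apply memℓp_gen
    apply summable_of_hasFiniteSupport
    refine Set.Finite.subset (((Finset.univ.biUnion fun j => ((e i j).coeff.support.image
      fun h => (g * h, j)) : Finset (G × Fin n)) : Set (G × Fin n)).toFinite) ?_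
    intro a ha
    rw [Finset.mem_coe, Finset.mem_biUnion]
    refine ⟨a.2, Finset.mem_univ _, ?_⟩
    rw [Finset.mem_image]
    refine ⟨g⁻¹ * a.1, ?_, by simp⟩
    rw [Finsupp.mem_support_iff]
    intro h0
    apply ha
    simp [h0]⟩

lemma row_apply (e : Mt G n) (g : G) (i : Fin n) (a : G × Fin n) :
    row e g i a = ((e i a.2).coeff (g⁻¹ * a.1) : ℝ) := rfl

lemma comp_row (e : Mt G n) (g h : G) (i : Fin n) : comp (sig n g) (row e h i) = row e (g * h) i := by
  ext a
  rw [comp_apply, row_apply, row_apply]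
  simp [sig, mul_assoc]

/-- the closed subspace spanned by the rows -/
def VV (e : Mt G n) : Submodule ℝ (HH G n) :=
  (Submodule.span ℝ (Set.range fun p : G × Fin n => row e p.1 p.2)).topologicalClosure

instance (e : Mt G n) : CompleteSpace (VV e) :=
  Submodule.topologicalClosure.completeSpace _

lemma row_mem (e : Mt G n) (g : G) (i : Fin n) : row e g i ∈ VV e :=
  Submodule.le_topologicalClosure _ (Submodule.subset_span ⟨(g, i), rfl⟩)

/-- composition as a continuous linear map -/
def compL {ι : Type*} (σ : Equiv.Perm ι) : lp (fun _ : ι => ℝ) 2 →L[ℝ] lp (fun _ : ι => ℝ) 2 :=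
  LinearMap.mkContinuous (comp σ) 1 (fun x => by
    rw [one_mul, ← sq_le_sq₀ (norm_nonneg _) (norm_nonneg _)]
    rw [← real_inner_self_eq_norm_sq, ← real_inner_self_eq_norm_sq, comp_inner])

lemma compL_apply {ι : Type*} (σ : Equiv.Perm ι) (x : lp (fun _ : ι => ℝ) 2) :
    compL σ x = comp σ x := rfl

lemma comp_mem (e : Mt G n) (g : G) (x : HH G n) (hx : x ∈ VV e) : comp (sig n g) x ∈ VV e := by
  have h1 : Set.MapsTo (compL (sig n g))
      (Submodule.span ℝ (Set.range fun p : G × Fin n => row e p.1 p.2) : Set (HH G n))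
      (Submodule.span ℝ (Set.range fun p : G × Fin n => row e p.1 p.2) : Set (HH G n)) := by
    intro y hy
    have h2 : (Submodule.span ℝ (Set.range fun p : G × Fin n => row e p.1 p.2)) ≤
        (Submodule.span ℝ (Set.range fun p : G × Fin n => row e p.1 p.2)).comap
          (comp (sig n g)) := by
      rw [Submodule.span_le]
      rintro _ ⟨p, rfl⟩
      change comp (sig n g) (row e p.1 p.2) ∈
        Submodule.span ℝ (Set.range fun p : G × Fin n => row e p.1 p.2)
      rw [comp_row]
      exact Submodule.subset_span ⟨(g * p.1, p.2), rfl⟩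
    exact h2 hy
  exact h1.closure (compL (sig n g)).continuous hx

lemma sig_symm (g : G) : (sig n g).symm = sig n g⁻¹ := by
  ext a <;> simp [sig]

/-- the projection commutes with translations -/
lemma proj_comp (e : Mt G n) (g : G) (x : HH G n) :
    (VV e).starProjection (comp (sig n g) x) = comp (sig n g) ((VV e).starProjection x) := by
  refine Submodule.eq_starProjection_of_mem_of_inner_eq_zero (K := VV e) ?_ ?_
  · exact comp_mem e g _ (Submodule.starProjection_apply_mem _ _)
  · intro w hw
    have h1 : w = comp (sig n g) (comp (sig n g).symm w) := (comp_symm _ _).symm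
    have h2 : comp (sig n g).symm w ∈ VV e := by rw [sig_symm]; exact comp_mem e _ _ hw
    rw [← map_sub, h1, comp_inner]
    exact Submodule.starProjection_inner_eq_zero _ _ h2

open Classical in
/-- the standard basis vectors -/
def dl (g : G) (i : Fin n) : HH G n := lp.single 2 (g, i) (1 : ℝ)

omit [Group G] in
lemma inner_dl (g : G) (i : Fin n) (x : HH G n) : ⟪dl g i, x⟫ = x (g, i) := by
  classical
  rw [dl, lp.inner_single_left]
  simp

/-- evaluation -/
def ev (a : G × Fin n) : HH G n →L[ℝ] ℝ := lp.evalCLM ℝ (fun _ : G × Fin n => ℝ) 2 a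

omit [Group G] in
lemma ev_apply (a : G × Fin n) (x : HH G n) : ev a x = x a := rfl

lemma comp_dl (g h : G) (i : Fin n) : comp (sig n g) (dl h i) = dl (g * h) i := by
  apply ext_inner_left ℝ
  intro v
  have h1 : ⟪v, comp (sig n g) (dl h i)⟫ = ⟪comp (sig n g).symm v, dl h i⟫ := by
    conv_lhs => rw [← comp_symm (sig n g) v]
    rw [comp_inner]
  rw [h1, real_inner_comm, real_inner_comm (dl (g * h) i), inner_dl, inner_dl, comp_apply]
  simp [sig]

/-- the coordinates of the projections of the basis vectors -/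
lemma proj_coord (e : Mt G n) (h : G) (i j : Fin n) :
    (VV e).starProjection (dl 1 i) (h, j) = (VV e).starProjection (dl 1 j) (h⁻¹, i) := by
  rw [← inner_dl, ← Submodule.inner_starProjection_left_eq_right, real_inner_comm, inner_dl]
  have h1 : dl h j = comp (sig n h) (dl 1 j) := by rw [comp_dl, mul_one]
  rw [h1, proj_comp, comp_apply]
  simp [sig]

/-- the functional which computes the coordinates at one of `x * e` -/
def ell (e : Mt G n) (j : Fin n) : HH G n →L[ℝ] ℝ :=
  ∑ i, ∑ h ∈ (e i j).coeff.support, ((e i j).coeff h : ℝ) • ev (h⁻¹, i)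

lemma ell_apply (e : Mt G n) (j : Fin n) (x : HH G n) :
    ell e j x = ∑ i, ∑ h ∈ (e i j).coeff.support, ((e i j).coeff h : ℝ) * x (h⁻¹, i) := by
  simp only [ell, _root_.sum_apply, _root_.smul_apply, smul_eq_mul, ev_apply]

lemma ell_eq (e : Mt G n) (he : e * e = e) (j : Fin n) (x : HH G n) (hx : x ∈ VV e) :
    ell e j x = x (1, j) := by
  have h1 : VV e ≤ LinearMap.ker ((ell e j - ev (1, j) : HH G n →L[ℝ] ℝ) :
      HH G n →ₗ[ℝ] ℝ) := by
    apply Submodule.topologicalClosure_minimal
    · rw [Submodule.span_le]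
      rintro _ ⟨⟨g, i⟩, rfl⟩
      change (ell e j - ev (1, j) : HH G n →L[ℝ] ℝ) (row e g i) = 0
      rw [_root_.sub_apply, ell_apply, sub_eq_zero, ev_apply]
      have h2 := congrFun (congrFun he i) j
      rw [Matrix.mul_apply] at h2
      have h3 := congrArg (fun z : MonoidAlgebra ℤ G => ((z.coeff g⁻¹ : ℤ) : ℝ)) h2
      beta_reduce at h3
      rw [row_apply]
      simp only [mul_one]
      rw [← h3, MonoidAlgebra.coeff_sum, Finsupp.finsetSum_apply]
      push_cast
      refine Finset.sum_congr rfl fun k _ => ?_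
      rw [MonoidAlgebra.coeff_mul_apply_right, Finsupp.sum]
      push_cast
      refine Finset.sum_congr rfl fun h _ => ?_
      rw [row_apply, mul_comm]
    · exact ContinuousLinearMap.isClosed_ker _
  have h2 := h1 hx
  have h3 : (ell e j - ev (1, j) : HH G n →L[ℝ] ℝ) x = 0 := h2
  rw [_root_.sub_apply, sub_eq_zero] at h3
  exact h3

/-- the trace is the trace of the projection -/
lemma tr_eq (e : Mt G n) (he : e * e = e) :
    (tr e : ℝ) = ∑ i, ‖(VV e).starProjection (dl 1 i)‖ ^ 2 := by
  classical
  have h1 : ∀ i, ‖(VV e).starProjection (dl 1 i)‖ ^ 2 =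
      (VV e).starProjection (dl (1 : G) i) (1, i) := by
    intro i
    rw [← real_inner_self_eq_norm_sq, ← inner_dl]
    have h2 := Submodule.starProjection_inner_eq_zero (K := VV e) (dl (1 : G) i)
      ((VV e).starProjection (dl 1 i)) (Submodule.starProjection_apply_mem _ _)
    rw [inner_sub_left, sub_eq_zero] at h2
    exact h2.symm
  have h2 : ∀ j, (VV e).starProjection (dl (1 : G) j) (1, j) =
      ∑ i, ∑ h ∈ (e i j).coeff.support, ((e i j).coeff h : ℝ) *
        (VV e).starProjection (dl 1 i) (h, j) := by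
    intro j
    rw [← ell_eq e he j _ (Submodule.starProjection_apply_mem _ _), ell_apply]
    refine Finset.sum_congr rfl fun i _ => Finset.sum_congr rfl fun h _ => ?_
    rw [proj_coord e h i j]
  have h3 : ∀ i, ((e i i).coeff 1 : ℝ) = ∑ j, ∑ h ∈ (e i j).coeff.support, ((e i j).coeff h : ℝ) *
        (VV e).starProjection (dl 1 i) (h, j) := by
    intro i
    have h4 : ((e i i).coeff 1 : ℝ) = ⟪(VV e).starProjection (dl 1 i), row e 1 i⟫ := by
      have h5 := Submodule.starProjection_inner_eq_zero (K := VV e) (dl (1 : G) i) (row e 1 i)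
        (row_mem e 1 i)
      rw [inner_sub_left, sub_eq_zero] at h5
      rw [← h5, inner_dl, row_apply]
      simp
    have h5 : row e 1 i = ∑ j, ∑ h ∈ (e i j).coeff.support, ((e i j).coeff h : ℝ) • dl h j := by
      ext a
      rw [← ev_apply, ← ev_apply, map_sum]
      simp_rw [map_sum, map_smul, ev_apply, row_apply]
      have h6 : ∀ (h : G) (j : Fin n), (dl h j : HH G n) a = if a = (h, j) then 1 else 0 := by
        intro h j
        rw [dl, lp.single_apply, Pi.single_apply]
      simp_rw [h6]
      obtain ⟨g, k⟩ := a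
      rw [Finset.sum_eq_single k]
      · simp only [smul_eq_mul, mul_ite, mul_one, mul_zero, Prod.mk.injEq, and_true, inv_one,
          one_mul]
        rw [Finset.sum_ite_eq]
        split_ifs with h7
        · rfl
        · rw [Finsupp.notMem_support_iff.mp h7]; simp
      · intro j _ hj
        refine Finset.sum_eq_zero fun h _ => ?_
        rw [if_neg (fun h0 : (g, k) = (h, j) => hj (Prod.ext_iff.mp h0).2.symm), smul_zero]
      · intro h0; exact absurd (Finset.mem_univ _) h0
    rw [h4, h5, inner_sum]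
    refine Finset.sum_congr rfl fun j _ => ?_
    rw [inner_sum]
    refine Finset.sum_congr rfl fun h _ => ?_
    rw [inner_smul_right, real_inner_comm, inner_dl]
  simp only [tr, Int.cast_sum]
  simp_rw [h3, h1, h2]
  rw [Finset.sum_comm]

theorem tr_nonneg (e : Mt G n) (he : e * e = e) : 0 ≤ tr e := by
  have h := tr_eq e he
  have h1 : (0 : ℝ) ≤ (tr e : ℝ) := by rw [h]; positivity
  exact_mod_cast h1

/-- Kaplansky's theorem -/
theorem eq_zero_of_tr (e : Mt G n) (he : e * e = e) (h0 : tr e = 0) : e = 0 := by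
  have h := tr_eq e he
  rw [h0, Int.cast_zero] at h
  have h1 : ∀ i, (VV e).starProjection (dl (1 : G) i) = 0 := by
    intro i
    have h2 := (Finset.sum_eq_zero_iff_of_nonneg (fun i _ => by positivity)).mp h.symm i
      (Finset.mem_univ _)
    exact norm_eq_zero.mp (pow_eq_zero_iff two_ne_zero |>.mp h2)
  have h2 : ∀ (g : G) i, (VV e).starProjection (dl g i) = 0 := by
    intro g i
    have h3 : dl g i = comp (sig n g) (dl 1 i) := by rw [comp_dl, mul_one]
    rw [h3, proj_comp, h1, map_zero]
  ext i j g
  have h3 := Submodule.starProjection_inner_eq_zero (K := VV e) (dl g j) (row e 1 i)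
    (row_mem e 1 i)
  rw [h2, sub_zero, inner_dl, row_apply] at h3
  simpa using h3

theorem tr_pos (e : Mt G n) (he : e * e = e) (h0 : e ≠ 0) : 0 < tr e :=
  lt_of_le_of_ne (tr_nonneg e he) (fun h => h0 (eq_zero_of_tr e he h.symm))

end

end Pool.MP_79a731_al.H5
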