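import Pool.Agent.Work.MP_79a731_al.H5.Close

/-!
Modules and idempotent matrices.
-/

set_option autoImplicit false

namespace Pool.MP_79a731_al.H5

open Function

noncomputable section

variable {G : Type*} [Group G] {n : ℕ}

/-- `M` is generated by the elements `(g - 1) m` with `g ∈ N` -/
def NPerfect (N : Subgroup G) (M : Type*) [AddCommGroup M] [Module (MonoidAlgebra ℤ G) M] : Prop :=
  Submodule.span (MonoidAlgebra ℤ G) {x : M | ∃ g ∈ N, ∃ m : M,
    x = (MonoidAlgebra.single g (1 : ℤ) - 1 : MonoidAlgebra ℤ G) • m} = ⊤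

/-- from a module to an idempotent matrix -/
theorem exists_matrix (N : Subgroup G) [N.Normal] (M : Type*) [AddCommGroup M]
    [Module (MonoidAlgebra ℤ G) M] [Module.Finite (MonoidAlgebra ℤ G) M]
    [Module.Projective (MonoidAlgebra ℤ G) M] :
    ∃ (n : ℕ) (e : Mt G n), e * e = e ∧ (e = 0 → Subsingleton M) ∧
      ∀ (K : Subgroup G) (_ : K.Normal), NPerfect K M → mp n (QuotientGroup.mk' K) e = 0 := by
  classical
  obtain ⟨n, π, hπ⟩ := Module.Finite.exists_fin' (MonoidAlgebra ℤ G) M
  obtain ⟨s, hs⟩ := Module.projective_lifting_property π LinearMap.id hπ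
  have hs' : ∀ m, π (s m) = m := fun m => congrArg (fun f : M →ₗ[MonoidAlgebra ℤ G] M => f m) hs
  let e : Mt G n := Matrix.of fun i j => s (π (Pi.single i 1)) j
  have he : ∀ i j, e i j = s (π (Pi.single i 1)) j := fun i j => rfl
  have hx : ∀ x : Fin n → MonoidAlgebra ℤ G, s (π x) = fun j => ∑ i, x i * e i j := by
    intro x
    have h1 : x = ∑ i, x i • (Pi.single i 1 : Fin n → MonoidAlgebra ℤ G) := by
      rw [← pi_eq_sum_univ' x]
    funext j
    conv_lhs => rw [h1]
    rw [map_sum, map_sum, Finset.sum_apply]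
    refine Finset.sum_congr rfl fun i _ => ?_
    rw [map_smul, map_smul, he]
    rfl
  refine ⟨n, e, ?_, ?_, ?_⟩
  · ext1 i k
    rw [Matrix.mul_apply, he i k]
    have h1 := hx (s (π (Pi.single i 1)))
    rw [hs'] at h1
    rw [congrFun h1 k]
    rfl
  · intro h0
    refine ⟨fun a b => ?_⟩
    have h1 : ∀ m : M, m = 0 := by
      intro m
      obtain ⟨x, rfl⟩ := hπ m
      rw [← hs' (π x), hx x]
      simp only [h0, Matrix.zero_apply, mul_zero, Finset.sum_const_zero]
      exact map_zero π
    rw [h1 a, h1 b]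
  · intro K hK hM
    let Z : Submodule (MonoidAlgebra ℤ G) (Fin n → MonoidAlgebra ℤ G) :=
      { carrier := {x | ∀ j, MonoidAlgebra.mapDomainRingHom ℤ (QuotientGroup.mk' K) (x j) = 0}
        add_mem' := fun {x y} hx hy j => by rw [Pi.add_apply, map_add, hx j, hy j, add_zero]
        zero_mem' := fun j => by rw [Pi.zero_apply, map_zero]
        smul_mem' := fun c x hx j => by rw [Pi.smul_apply, smul_eq_mul, map_mul, hx j, mul_zero] }
    have h1 : (⊤ : Submodule (MonoidAlgebra ℤ G) M) ≤ Z.comap s := by
      rw [← hM, Submodule.span_le]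
      rintro _ ⟨g, hg, m, rfl⟩
      change s _ ∈ Z
      intro j
      rw [map_smul, Pi.smul_apply, smul_eq_mul, map_mul, map_sub, map_one]
      have h2 : MonoidAlgebra.mapDomainRingHom ℤ (QuotientGroup.mk' K)
          (MonoidAlgebra.single g (1 : ℤ)) = 1 := by
        rw [MonoidAlgebra.mapDomainRingHom_apply, MonoidAlgebra.mapDomain_single]
        have h3 : QuotientGroup.mk' K g = 1 := (QuotientGroup.eq_one_iff g).mpr hg
        rw [h3]
        rfl
      rw [h2, sub_self, zero_mul]
    apply Matrix.ext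
    intro i j
    rw [mp_apply, Matrix.zero_apply, he]
    exact h1 (Submodule.mem_top (x := π (Pi.single i 1))) j

/-- the augmentation -/
def aug (G : Type*) [Group G] : MonoidAlgebra ℤ G →+ ℤ where
  toFun y := y.coeff.sum fun _ a => a
  map_zero' := by simp
  map_add' x y := by
    rw [MonoidAlgebra.coeff_add, Finsupp.sum_add_index']
    · intro a; rfl
    · intro a b c; rfl

lemma aug_apply (y : MonoidAlgebra ℤ G) : aug G y = y.coeff.sum fun _ a => a := rfl

lemma aug_of_map (K : Subgroup G) [K.Normal] (y : MonoidAlgebra ℤ G)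
    (h : MonoidAlgebra.mapDomainRingHom ℤ (QuotientGroup.mk' K) y = 0) : aug G y = 0 := by
  have h1 : aug (G ⧸ K) (MonoidAlgebra.mapDomainRingHom ℤ (QuotientGroup.mk' K) y) = aug G y := by
    rw [aug_apply, aug_apply]
    have h1 : (MonoidAlgebra.mapDomainRingHom ℤ (QuotientGroup.mk' K) y).coeff =
        Finsupp.mapDomain (QuotientGroup.mk' K) y.coeff := by
      rw [← MonoidAlgebra.coeff_mapDomain]
      rfl
    rw [h1, Finsupp.sum_mapDomain_index]
    · intro a; rfl
    · intro a b c; rfl
  rw [← h1, h, map_zero]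

/-- the module of an element of the augmentation ideal -/
lemma smul_mem_span {M : Type*} [AddCommGroup M] [Module (MonoidAlgebra ℤ G) M]
    (y : MonoidAlgebra ℤ G) (m : M) : y • m - (aug G y : ℤ) • m ∈
      Submodule.span (MonoidAlgebra ℤ G) {x : M | ∃ g ∈ (⊤ : Subgroup G), ∃ m : M,
        x = (MonoidAlgebra.single g (1 : ℤ) - 1 : MonoidAlgebra ℤ G) • m} := by
  induction y using MonoidAlgebra.induction_linear with
  | zero => simp
  | add x y hx hy =>
    rw [map_add, add_smul, add_smul]
    have h1 : x • m + y • m - (aug G x • m + aug G y • m) =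
        (x • m - aug G x • m) + (y • m - aug G y • m) := by abel
    rw [h1]
    exact Submodule.add_mem _ hx hy
  | single g a =>
    have h1 : aug G (MonoidAlgebra.single g a) = a := by
      rw [aug_apply, MonoidAlgebra.coeff_single, Finsupp.sum_single_index rfl]
    have h2 : (MonoidAlgebra.single g a : MonoidAlgebra ℤ G) = a • MonoidAlgebra.single g 1 := by
      rw [MonoidAlgebra.smul_single, smul_eq_mul, mul_one]
    have h3 : (MonoidAlgebra.single g a : MonoidAlgebra ℤ G) • m - a • m =
        a • ((MonoidAlgebra.single g (1 : ℤ) - 1 : MonoidAlgebra ℤ G) • m) := by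
      rw [h2, smul_assoc, ← smul_sub, sub_smul, one_smul]
    rw [h1, h3]
    refine zsmul_mem ?_ a
    exact Submodule.subset_span ⟨g, Subgroup.mem_top g, m, rfl⟩

/-- from an idempotent matrix to a module -/
theorem exists_module {e : Mt G n} (he : e * e = e)
    (h0 : mp n (QuotientGroup.mk' (⊤ : Subgroup G)) e = 0) :
    ∃ P : Submodule (MonoidAlgebra ℤ G) (Fin n → MonoidAlgebra ℤ G),
      Module.Finite (MonoidAlgebra ℤ G) P ∧ Module.Projective (MonoidAlgebra ℤ G) P ∧
      NPerfect (⊤ : Subgroup G) P ∧ (Subsingleton P → e = 0) := by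
  classical
  let R := Matrix.vecMulLinear e
  have hR : ∀ x j, R x j = ∑ i, x i * e i j := fun x j => rfl
  have hRR : ∀ x, R (R x) = R x := by
    intro x
    have h1 : ∀ x, R x = Matrix.vecMul x e := fun x => rfl
    rw [h1, h1, Matrix.vecMul_vecMul, he]
  have hRP : ∀ x ∈ LinearMap.range R, R x = x := by
    rintro _ ⟨y, rfl⟩
    exact hRR y
  refine ⟨LinearMap.range R, inferInstance, ?_, ?_, ?_⟩
  · refine Module.Projective.of_split (LinearMap.range R).subtype R.rangeRestrict ?_
    apply LinearMap.ext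
    intro x
    exact Subtype.ext (hRP x x.2)
  · let r : Fin n → LinearMap.range R := fun i => ⟨R (Pi.single i 1), ⟨_, rfl⟩⟩
    have hr : ∀ x : Fin n → MonoidAlgebra ℤ G,
        (⟨R x, ⟨x, rfl⟩⟩ : LinearMap.range R) = ∑ i, x i • r i := by
      intro x
      apply Subtype.ext
      have h1 : x = ∑ i, x i • (Pi.single i 1 : Fin n → MonoidAlgebra ℤ G) := by
        rw [← pi_eq_sum_univ' x]
      change R x = ((∑ i, x i • r i : LinearMap.range R) : Fin n → MonoidAlgebra ℤ G)
      conv_lhs => rw [h1]
      rw [map_sum, Submodule.coe_sum]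
      exact Finset.sum_congr rfl fun i _ => by rw [map_smul]; rfl
    have hri : ∀ i, r i ∈ Submodule.span (MonoidAlgebra ℤ G)
        {x : LinearMap.range R | ∃ g ∈ (⊤ : Subgroup G), ∃ m : LinearMap.range R,
          x = (MonoidAlgebra.single g (1 : ℤ) - 1 : MonoidAlgebra ℤ G) • m} := by
      intro i
      have h1 : r i = ∑ j, e i j • r j := by
        have h2 := hr (R (Pi.single i 1))
        have h3 : r i = ⟨R (R (Pi.single i 1)), ⟨_, rfl⟩⟩ := Subtype.ext (hRR _).symm
        rw [h3, h2]
        refine Finset.sum_congr rfl fun j _ => ?_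
        congr 1
        rw [hR, Finset.sum_eq_single i]
        · simp
        · intro b _ hb; simp [Pi.single_eq_of_ne hb]
        · intro h; exact absurd (Finset.mem_univ _) h
      rw [h1]
      refine Submodule.sum_mem _ fun j _ => ?_
      have h2 := smul_mem_span (e i j) (r j)
      have h3 : aug G (e i j) = 0 := aug_of_map ⊤ _ (congrFun (congrFun h0 i) j)
      rw [h3, zero_smul, sub_zero] at h2
      exact h2
    unfold NPerfect
    rw [eq_top_iff]
    rintro ⟨_, x, rfl⟩ _
    rw [hr x]
    exact Submodule.sum_mem _ fun i _ => Submodule.smul_mem _ _ (hri i)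
  · intro hs
    apply Matrix.ext
    intro i j
    have h1 : (⟨R (Pi.single i 1), ⟨_, rfl⟩⟩ : LinearMap.range R) = 0 := Subsingleton.elim _ _
    have h2 := congrFun (congrArg Subtype.val h1) j
    change R (Pi.single i 1) j = 0 at h2
    rw [hR, Finset.sum_eq_single i] at h2
    · simpa using h2
    · intro b _ hb; simp [Pi.single_eq_of_ne hb]
    · intro h; exact absurd (Finset.mem_univ _) h

/-- every matrix comes from a finitely generated subgroup -/
theorem exists_fg (e : Mt G n) :
    ∃ (H : Subgroup G) (e' : Mt H n), H.FG ∧ mp n H.subtype e' = e := by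
  classical
  let S : Finset G := Finset.univ.biUnion fun i => Finset.univ.biUnion fun j =>
    (e i j).coeff.support
  have hS : ∀ i j, ∀ h ∈ (e i j).coeff.support, h ∈ S := by
    intro i j h hh
    rw [Finset.mem_biUnion]
    refine ⟨i, Finset.mem_univ _, ?_⟩
    rw [Finset.mem_biUnion]
    exact ⟨j, Finset.mem_univ _, hh⟩
  let H : Subgroup G := Subgroup.closure (S : Set G)
  refine ⟨H, Matrix.of fun i j => .ofCoeff (Finsupp.comapDomain H.subtype (e i j).coeff
    H.subtype_injective.injOn), ⟨S, rfl⟩, ?_⟩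
  apply Matrix.ext
  intro i j
  rw [mp_apply, Matrix.of_apply]
  apply MonoidAlgebra.coeff_injective
  rw [MonoidAlgebra.mapDomainRingHom_apply, MonoidAlgebra.coeff_mapDomain]
  change Finsupp.mapDomain H.subtype (Finsupp.comapDomain H.subtype (e i j).coeff _) = _
  rw [Finsupp.mapDomain_comapDomain _ H.subtype_injective]
  intro h hh
  exact ⟨⟨h, Subgroup.subset_closure (Finset.mem_coe.mpr (hS i j h hh))⟩, rfl⟩

lemma mp_injective {G' : Type*} [Group G'] {f : G →* G'} (hf : Injective f) :
    Injective (mp n f) := by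
  intro x y h
  apply Matrix.ext
  intro i j
  have h1 := congrFun (congrFun h i) j
  rw [mp_apply, mp_apply] at h1
  apply MonoidAlgebra.coeff_injective
  apply Finsupp.mapDomain_injective hf
  have h2 := congrArg MonoidAlgebra.coeff h1
  rw [MonoidAlgebra.mapDomainRingHom_apply, MonoidAlgebra.mapDomainRingHom_apply,
    MonoidAlgebra.coeff_mapDomain, MonoidAlgebra.coeff_mapDomain] at h2
  exact h2

lemma mp_subgroupOf (N : Subgroup G) [N.Normal] (H : Subgroup G) (e' : Mt H n)
    (h : mp n (QuotientGroup.mk' N) (mp n H.subtype e') = 0) :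
    mp n (QuotientGroup.mk' (N.subgroupOf H)) e' = 0 := by
  let θ : H ⧸ N.subgroupOf H →* G ⧸ N := QuotientGroup.map (N.subgroupOf H) N H.subtype
    (fun x hx => hx)
  have hθ : Injective θ := by
    rw [injective_iff_map_eq_one]
    intro x
    induction x using QuotientGroup.induction_on with
    | H g =>
      intro hg
      have h1 : ((g : G) : G ⧸ N) = 1 := hg
      rw [QuotientGroup.eq_one_iff] at h1 ⊢
      exact h1
  apply mp_injective hθ
  rw [map_zero, mp_comp, ← h, mp_comp]
  rfl

end

end Pool.MP_79a731_al.H5
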