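import Mathlib

/-!
Locally p-indicable normal subgroups: an equivariant operator on functions which is the identity on
the functions invariant under such a subgroup has dense image.
-/

set_option autoImplicit false
set_option linter.unusedSectionVars false

namespace Pool.MP_79a731_al.H5

open Function

noncomputable section

variable {G : Type*} [Group G] {n : ℕ} {p : ℕ} [hp : Fact p.Prime]

/-- functions on the basis -/
abbrev Fn (G : Type*) (n p : ℕ) := G × Fin n → ZMod p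

/-- evaluation functionals -/
def evf (y : G × Fin n) : Fn G n p →ₗ[ZMod p] ZMod p := LinearMap.proj y

lemma evf_apply (y : G × Fin n) (f : Fn G n p) : evf y f = f y := rfl

/-- finitely supported functionals -/
def LL (U : Set (G × Fin n)) : Submodule (ZMod p) (Fn G n p →ₗ[ZMod p] ZMod p) :=
  Submodule.span _ (evf '' U)

lemma LL_comp {U U' : Set (G × Fin n)} (B : Fn G n p →ₗ[ZMod p] Fn G n p)
    (hB : ∀ y ∈ U, (evf y).comp B ∈ LL U') {l : Fn G n p →ₗ[ZMod p] ZMod p} (hl : l ∈ LL U) :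
    l.comp B ∈ LL U' := by
  induction hl using Submodule.span_induction with
  | mem x hx => obtain ⟨y, hy, rfl⟩ := hx; exact hB y hy
  | zero => rw [LinearMap.zero_comp]; exact Submodule.zero_mem _
  | add x y _ _ hx hy => rw [LinearMap.add_comp]; exact Submodule.add_mem _ hx hy
  | smul a x _ hx => rw [LinearMap.smul_comp]; exact Submodule.smul_mem _ _ hx

/-- translation -/
def tl (g : G) : Fn G n p →ₗ[ZMod p] Fn G n p := LinearMap.funLeft _ _ fun y => (g * y.1, y.2)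

lemma tl_apply (g : G) (f : Fn G n p) (y : G × Fin n) : tl g f y = f (g * y.1, y.2) := rfl

lemma tl_tl (g h : G) (f : Fn G n p) : tl g (tl h f) = tl (h * g) f := by
  funext y; simp only [tl_apply, mul_assoc]

lemma tl_one (f : Fn G n p) : tl 1 f = f := by
  funext y; simp only [tl_apply, one_mul]

/-- the points of the orbits of a set -/
def KS (K : Subgroup G) (S : Set (G × Fin n)) : Set (G × Fin n) :=
  {y | ∃ k ∈ K, ∃ s ∈ S, y = (k * s.1, s.2)}

/-- invariant functions -/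
def Inv (K : Subgroup G) (f : Fn G n p) : Prop := ∀ k ∈ K, tl k f = f

lemma Inv.apply {K : Subgroup G} {f : Fn G n p} (hf : Inv K f) {k : G} (hk : k ∈ K)
    (y : G × Fin n) : f (k * y.1, y.2) = f y := by
  rw [← tl_apply k f y, hf k hk]

/-- the injectivity property -/
def IP (Φ : Fn G n p →ₗ[ZMod p] Fn G n p) (K : Subgroup G) (S : Set (G × Fin n)) : Prop :=
  ∀ l ∈ LL S, (∀ f, Inv K f → l (Φ f) = 0) → ∀ f, Inv K f → l f = 0

lemma LL_mono {U U' : Set (G × Fin n)} (h : U ⊆ U') : (LL U : Submodule (ZMod p) _) ≤ LL U' :=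
  Submodule.span_mono (Set.image_mono h)

/-- extension to the orbits -/
lemma IP.orbits {Φ : Fn G n p →ₗ[ZMod p] Fn G n p} (hΦ : ∀ g f, Φ (tl g f) = tl g (Φ f))
    {K : Subgroup G} {S : Set (G × Fin n)} (h : IP Φ K S) : IP Φ K (KS K S) := by
  have key : ∀ l ∈ (LL (KS K S) : Submodule (ZMod p) _), ∃ l' ∈ (LL S : Submodule (ZMod p) _),
      ∀ f : Fn G n p, Inv K f → l f = l' f := by
    intro l hl
    induction hl using Submodule.span_induction with
    | mem x hx =>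
      obtain ⟨y, ⟨k, hk, s, hs, rfl⟩, rfl⟩ := hx
      refine ⟨evf s, Submodule.subset_span ⟨s, hs, rfl⟩, fun f hf => ?_⟩
      rw [evf_apply, evf_apply, hf.apply hk]
    | zero => exact ⟨0, Submodule.zero_mem _, fun f _ => rfl⟩
    | add x y _ _ hx hy =>
      obtain ⟨x', hx', hx''⟩ := hx
      obtain ⟨y', hy', hy''⟩ := hy
      exact ⟨x' + y', Submodule.add_mem _ hx' hy', fun f hf => by
        rw [LinearMap.add_apply, LinearMap.add_apply, hx'' f hf, hy'' f hf]⟩
    | smul a x _ hx =>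
      obtain ⟨x', hx', hx''⟩ := hx
      exact ⟨a • x', Submodule.smul_mem _ _ hx', fun f hf => by
        rw [LinearMap.smul_apply, LinearMap.smul_apply, hx'' f hf]⟩
  intro l hl h1 f hf
  obtain ⟨l', hl', hl''⟩ := key l hl
  rw [hl'' f hf]
  refine h l' hl' (fun g hg => ?_) f hf
  rw [← hl'' _ (fun k hk => by rw [← hΦ, hg k hk]), h1 g hg]

/-- passage to a subgroup with the same orbits -/
lemma IP.sub {Φ : Fn G n p →ₗ[ZMod p] Fn G n p} {K K' : Subgroup G} {S : Set (G × Fin n)}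
    (h : IP Φ K S) (hKK : K' ≤ K)
    (hS : ∀ s ∈ S, ∀ s' ∈ S, ∀ k ∈ K, s' = (k * s.1, s.2) → k ∈ K') : IP Φ K' S := by
  classical
  intro l hl h1 f hf
  have h2 := h l hl (fun g hg => h1 g fun k hk => hg k (hKK hk))
  let f1 : Fn G n p := fun y =>
    if hy : ∃ s ∈ S, ∃ k ∈ K, y = (k * s.1, s.2) then f hy.choose else 0
  have hf1 : ∀ y s, s ∈ S → (∃ k ∈ K, y = (k * s.1, s.2)) → f1 y = f s := by
    intro y s hs hy
    have hy' : ∃ s ∈ S, ∃ k ∈ K, y = (k * s.1, s.2) := ⟨s, hs, hy⟩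
    simp only [f1]
    rw [dif_pos hy']
    obtain ⟨h3, k', hk', h4⟩ := hy'.choose_spec
    obtain ⟨k, hk, h5⟩ := hy
    set s' := hy'.choose with hs'
    have h6 : s' = ((k'⁻¹ * k) * s.1, s.2) := by
      rw [h5, Prod.mk.injEq] at h4
      ext1
      · change s'.1 = k'⁻¹ * k * s.1
        rw [mul_assoc, h4.1, ← mul_assoc, inv_mul_cancel, one_mul]
      · exact h4.2.symm
    have h7 := hS s hs s' h3 (k'⁻¹ * k) (K.mul_mem (K.inv_mem hk') hk) h6
    rw [h6, hf.apply h7]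
  have hf1inv : Inv K f1 := by
    intro k hk
    funext y
    rw [tl_apply]
    by_cases hy : ∃ s ∈ S, ∃ k ∈ K, y = (k * s.1, s.2)
    · obtain ⟨s, hs, k', hk', rfl⟩ := hy
      rw [hf1 _ s hs ⟨k', hk', rfl⟩, hf1 _ s hs ⟨k * k', K.mul_mem hk hk', by
        simp only [mul_assoc]⟩]
    · have hy' : ¬ ∃ s ∈ S, ∃ k' ∈ K, ((k * y.1, y.2) : G × Fin n) = (k' * s.1, s.2) := by
        rintro ⟨s, hs, k', hk', h3⟩
        apply hy
        refine ⟨s, hs, k⁻¹ * k', K.mul_mem (K.inv_mem hk) hk', ?_⟩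
        rw [Prod.mk.injEq] at h3
        ext1
        · change y.1 = k⁻¹ * k' * s.1
          rw [mul_assoc, ← h3.1, inv_mul_cancel_left]
        · exact h3.2
      simp only [f1]
      rw [dif_neg hy, dif_neg hy']
  have h3 : ∀ l ∈ (LL S : Submodule (ZMod p) _), l f = l f1 := by
    intro l hl
    induction hl using Submodule.span_induction with
    | mem x hx =>
      obtain ⟨y, hy, rfl⟩ := hx
      rw [evf_apply, evf_apply, hf1 y y hy ⟨1, K.one_mem, by simp⟩]
    | zero => rfl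
    | add x y _ _ hx hy => rw [LinearMap.add_apply, LinearMap.add_apply, hx, hy]
    | smul a x _ hx => rw [LinearMap.smul_apply, LinearMap.smul_apply, hx]
  rw [h3 l hl]
  exact h2 f1 hf1inv

/-- the kernel of a character -/
def ker (K : Subgroup G) (χ : G → ZMod p) (hχ : ∀ a ∈ K, ∀ b ∈ K, χ (a * b) = χ a + χ b) :
    Subgroup G where
  carrier := {a | a ∈ K ∧ χ a = 0}
  one_mem' := ⟨K.one_mem, by
    have h := hχ 1 K.one_mem 1 K.one_mem
    rw [mul_one] at h
    exact left_eq_add.mp h⟩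
  mul_mem' := by
    rintro a b ⟨ha, ha'⟩ ⟨hb, hb'⟩
    exact ⟨K.mul_mem ha hb, by rw [hχ a ha b hb, ha', hb', add_zero]⟩
  inv_mem' := by
    rintro a ⟨ha, ha'⟩
    refine ⟨K.inv_mem ha, ?_⟩
    have h1 := hχ 1 K.one_mem 1 K.one_mem
    rw [mul_one] at h1
    have h := hχ a ha a⁻¹ (K.inv_mem ha)
    rw [mul_inv_cancel, ha', zero_add] at h
    rw [← h]
    exact left_eq_add.mp h1

lemma mem_ker {K : Subgroup G} {χ : G → ZMod p} {hχ : ∀ a ∈ K, ∀ b ∈ K, χ (a * b) = χ a + χ b}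
    {a : G} : a ∈ ker K χ hχ ↔ a ∈ K ∧ χ a = 0 := Iff.rfl

/-- the coordinate function -/
def XC (K : Subgroup G) (χ : G → ZMod p) (y : G × Fin n) : ZMod p :=
  χ (y.1 * (Quotient.out (s := QuotientGroup.rightRel K) (Quotient.mk'' y.1))⁻¹)

lemma XC_mul (K : Subgroup G) (χ : G → ZMod p) (hχ : ∀ a ∈ K, ∀ b ∈ K, χ (a * b) = χ a + χ b)
    (k : G) (hk : k ∈ K) (y : G × Fin n) : XC K χ (k * y.1, y.2) = χ k + XC K χ y := by
  unfold XC
  have h1 : (Quotient.mk'' (k * y.1) : Quotient (QuotientGroup.rightRel K)) =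
      Quotient.mk'' y.1 := by
    rw [Quotient.eq'', QuotientGroup.rightRel_apply]
    simpa using K.inv_mem hk
  change χ (k * y.1 * _) = _
  rw [h1, mul_assoc]
  apply hχ k hk
  have h2 : (Quotient.mk'' (Quotient.out (s := QuotientGroup.rightRel K) (Quotient.mk'' y.1)) :
      Quotient (QuotientGroup.rightRel K)) = Quotient.mk'' y.1 := Quotient.out_eq' _
  rw [Quotient.eq'', QuotientGroup.rightRel_apply] at h2
  exact h2

lemma tl_eq_of_char {K : Subgroup G} {χ : G → ZMod p}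
    {hχ : ∀ a ∈ K, ∀ b ∈ K, χ (a * b) = χ a + χ b} {f : Fn G n p} (hf : Inv (ker K χ hχ) f)
    {a b : G} (ha : a ∈ K) (hb : b ∈ K) (hab : χ a = χ b) : tl a f = tl b f := by
  have h1 : a * b⁻¹ ∈ ker K χ hχ := by
    refine ⟨K.mul_mem ha (K.inv_mem hb), ?_⟩
    have h2 := hχ (a * b⁻¹) (K.mul_mem ha (K.inv_mem hb)) b hb
    rw [inv_mul_cancel_right, hab] at h2
    exact (right_eq_add.mp h2)
  have h2 := hf _ h1
  have h3 : tl b (tl (a * b⁻¹) f) = tl a f := by rw [tl_tl, inv_mul_cancel_right]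
  rw [← h3, h2]

lemma inv_tl {K : Subgroup G} {χ : G → ZMod p}
    {hχ : ∀ a ∈ K, ∀ b ∈ K, χ (a * b) = χ a + χ b} {f : Fn G n p} (hf : Inv (ker K χ hχ) f)
    {a : G} (ha : a ∈ K) : Inv (ker K χ hχ) (tl a f) := by
  intro k hk
  rw [tl_tl]
  refine tl_eq_of_char hf (K.mul_mem ha hk.1) ha ?_
  rw [hχ a ha k hk.1, hk.2, add_zero]

lemma char_pow {K : Subgroup G} {χ : G → ZMod p}
    (hχ : ∀ a ∈ K, ∀ b ∈ K, χ (a * b) = χ a + χ b) {t : G} (ht : t ∈ K) (m : ℕ) :
    χ (t ^ m) = m * χ t := by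
  induction m with
  | zero =>
    have h := hχ 1 K.one_mem 1 K.one_mem
    rw [mul_one] at h
    rw [pow_zero, Nat.cast_zero, zero_mul]
    exact left_eq_add.mp h
  | succ m ih =>
    rw [pow_succ, hχ _ (K.pow_mem ht m) _ ht, ih]
    push_cast
    ring

/-- restriction to a level of the coordinate function -/
def ind (K : Subgroup G) (χ : G → ZMod p) (x : ZMod p) : Fn G n p →ₗ[ZMod p] Fn G n p where
  toFun f y := if XC K χ y = x then f y else 0
  map_add' f g := by
    funext y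
    by_cases h : XC K χ y = x <;> simp [h]
  map_smul' c f := by
    funext y
    by_cases h : XC K χ y = x <;> simp [h]

lemma ind_apply (K : Subgroup G) (χ : G → ZMod p) (x : ZMod p) (f : Fn G n p) (y : G × Fin n) :
    ind K χ x f y = if XC K χ y = x then f y else 0 := rfl

lemma inv_ind {K : Subgroup G} {χ : G → ZMod p}
    {hχ : ∀ a ∈ K, ∀ b ∈ K, χ (a * b) = χ a + χ b} {f : Fn G n p} (hf : Inv (ker K χ hχ) f)
    (x : ZMod p) : Inv (ker K χ hχ) (ind K χ x f) := by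
  intro k hk
  funext y
  rw [tl_apply, ind_apply, ind_apply, XC_mul K χ hχ k hk.1, hk.2, zero_add, hf.apply hk]

/-- the transfer -/
def NN (t : G) : Fn G n p →ₗ[ZMod p] Fn G n p := ∑ x : ZMod p, tl (t ^ x.val)

lemma NN_apply (t : G) (f : Fn G n p) : NN t f = ∑ x : ZMod p, tl (t ^ x.val) f := by
  simp only [NN, LinearMap.sum_apply]

lemma inv_NN {K : Subgroup G} {χ : G → ZMod p}
    {hχ : ∀ a ∈ K, ∀ b ∈ K, χ (a * b) = χ a + χ b} {f : Fn G n p} (hf : Inv (ker K χ hχ) f)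
    {t : G} (ht : t ∈ K) (ht1 : χ t = 1) : Inv K (NN t f) := by
  intro k hk
  rw [NN_apply, map_sum]
  rw [← Equiv.sum_comp (Equiv.addRight (χ k)) (fun x : ZMod p => tl (t ^ x.val) f)]
  refine Finset.sum_congr rfl fun x _ => ?_
  rw [tl_tl]
  refine tl_eq_of_char hf (K.mul_mem (K.pow_mem ht _) hk) (K.pow_mem ht _) ?_
  rw [hχ _ (K.pow_mem ht _) k hk, char_pow hχ ht, char_pow hχ ht, ht1, mul_one, mul_one,
    ZMod.natCast_zmod_val, ZMod.natCast_zmod_val]
  rfl

lemma Inv.mono {K K' : Subgroup G} (h : K' ≤ K) {f : Fn G n p} (hf : Inv K f) : Inv K' f :=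
  fun k hk => hf k (h hk)

lemma ker_le {K : Subgroup G} {χ : G → ZMod p}
    {hχ : ∀ a ∈ K, ∀ b ∈ K, χ (a * b) = χ a + χ b} : ker K χ hχ ≤ K := fun _ h => h.1

lemma NN_ind {K : Subgroup G} {χ : G → ZMod p}
    {hχ : ∀ a ∈ K, ∀ b ∈ K, χ (a * b) = χ a + χ b} {f : Fn G n p} (hf : Inv K f)
    {t : G} (ht : t ∈ K) (ht1 : χ t = 1) : NN t (ind K χ 0 f) = f := by
  rw [NN_apply]
  funext y
  rw [Finset.sum_apply]
  have h1 : ∀ x : ZMod p, tl (t ^ x.val) (ind K χ 0 f) y =
      if x = -XC K χ y then f y else 0 := by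
    intro x
    rw [tl_apply, ind_apply, XC_mul K χ hχ _ (K.pow_mem ht _), char_pow hχ ht, ht1, mul_one,
      ZMod.natCast_zmod_val, hf.apply (K.pow_mem ht _)]
    simp only [add_eq_zero_iff_eq_neg]
  simp_rw [h1]
  rw [Finset.sum_ite_eq']
  simp

lemma step_core {Φ : Fn G n p →ₗ[ZMod p] Fn G n p} (hΦ : ∀ g f, Φ (tl g f) = tl g (Φ f))
    {K : Subgroup G} {S : Set (G × Fin n)} (h : IP Φ K (KS K S)) {χ : G → ZMod p}
    {hχ : ∀ a ∈ K, ∀ b ∈ K, χ (a * b) = χ a + χ b} {t : G} (ht : t ∈ K) (ht1 : χ t = 1)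
    {l : Fn G n p →ₗ[ZMod p] ZMod p} (hl : l ∈ LL (KS K S))
    (hl1 : ∀ f, Inv (ker K χ hχ) f → l (tl t f) = l f)
    (hl2 : ∀ f, Inv (ker K χ hχ) f → l (Φ f) = 0) (v : Fn G n p) (hv : Inv (ker K χ hχ) v) :
    l v = 0 := by
  have hl3 : ∀ m : ℕ, ∀ f, Inv (ker K χ hχ) f → l (tl (t ^ m) f) = l f := by
    intro m
    induction m with
    | zero => intro f _; rw [pow_zero, tl_one]
    | succ m ih =>
      intro f hf
      rw [pow_succ, ← tl_tl, hl1 _ (inv_tl hf (K.pow_mem ht m)), ih f hf]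
  have key : ∀ w, Inv (ker K χ hχ) w → l w = l (ind K χ 0 (NN t w)) := by
    intro w hw
    have h1 : w = ∑ x : ZMod p, ind K χ x w := by
      funext y
      rw [Finset.sum_apply]
      simp only [ind_apply]
      rw [Finset.sum_ite_eq]
      simp
    conv_lhs => rw [h1]
    rw [NN_apply, map_sum, map_sum, map_sum]
    refine Finset.sum_congr rfl fun x _ => ?_
    rw [← hl3 x.val _ (inv_ind hw x)]
    congr 1
    funext y
    rw [tl_apply, ind_apply, ind_apply, XC_mul K χ hχ _ (K.pow_mem ht _), char_pow hχ ht, ht1,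
      mul_one, ZMod.natCast_zmod_val, tl_apply]
    simp only [add_eq_left]
  have hN : ∀ f, Φ (NN t f) = NN t (Φ f) := by
    intro f
    rw [NN_apply, NN_apply, map_sum]
    exact Finset.sum_congr rfl fun x _ => hΦ _ _
  have hmu : l.comp (ind K χ 0) ∈ LL (KS K S) := by
    refine LL_comp _ (fun y hy => ?_) hl
    by_cases hx : XC K χ y = 0
    · have : (evf y).comp (ind K χ 0) = (evf y : Fn G n p →ₗ[ZMod p] ZMod p) := by
        apply LinearMap.ext
        intro f
        rw [LinearMap.comp_apply, evf_apply, evf_apply, ind_apply, if_pos hx]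
      rw [this]
      exact Submodule.subset_span ⟨y, hy, rfl⟩
    · have : (evf y).comp (ind K χ 0) = (0 : Fn G n p →ₗ[ZMod p] ZMod p) := by
        apply LinearMap.ext
        intro f
        rw [LinearMap.comp_apply, evf_apply, ind_apply, if_neg hx]
        rfl
      rw [this]
      exact Submodule.zero_mem _
  have h2 : ∀ g, Inv K g → (l.comp (ind K χ 0)) g = 0 := by
    refine h _ hmu fun g hg => ?_
    rw [LinearMap.comp_apply]
    have h3 : Inv (ker K χ hχ) (ind K χ 0 g) := inv_ind (hg.mono ker_le) 0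
    have h4 : Inv (ker K χ hχ) (Φ (ind K χ 0 g)) := fun k hk => by rw [← hΦ, h3 k hk]
    rw [← NN_ind (hχ := hχ) hg ht ht1, hN, ← key _ h4]
    exact hl2 _ h3
  rw [key v hv]
  exact h2 _ (inv_NN hv ht ht1)

/-- the step -/
lemma IP.step {Φ : Fn G n p →ₗ[ZMod p] Fn G n p} (hΦ : ∀ g f, Φ (tl g f) = tl g (Φ f))
    {K : Subgroup G} {S : Set (G × Fin n)} (h : IP Φ K S) {χ : G → ZMod p}
    {hχ : ∀ a ∈ K, ∀ b ∈ K, χ (a * b) = χ a + χ b} (hnt : ∃ a ∈ K, χ a ≠ 0) :
    IP Φ (ker K χ hχ) S := by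
  obtain ⟨a, ha, ha0⟩ := hnt
  obtain ⟨t, ht, ht1⟩ : ∃ t ∈ K, χ t = 1 := by
    refine ⟨a ^ ((χ a)⁻¹).val, K.pow_mem ha _, ?_⟩
    rw [char_pow hχ ha, ZMod.natCast_zmod_val, inv_mul_cancel₀ ha0]
  have h' := h.orbits hΦ
  let T : Fn G n p →ₗ[ZMod p] Fn G n p := tl t - 1
  have hT : ∀ f, Inv (ker K χ hχ) f → Inv (ker K χ hχ) (T f) := by
    intro f hf k hk
    have h1 : T f = tl t f - f := rfl
    rw [h1, map_sub, inv_tl hf ht k hk, hf k hk]
  have hTΦ : ∀ f, Φ (T f) = T (Φ f) := by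
    intro f
    have h1 : ∀ f, T f = tl t f - f := fun f => rfl
    rw [h1, h1, map_sub, hΦ]
  have key : ∀ j : ℕ, ∀ l ∈ (LL (KS K S) : Submodule (ZMod p) _),
      (∀ f, Inv (ker K χ hχ) f → l (Φ f) = 0) → (∀ f, Inv (ker K χ hχ) f → l ((T ^ j) f) = 0) →
      ∀ f, Inv (ker K χ hχ) f → l f = 0 := by
    intro j
    induction j with
    | zero => intro l _ _ h2 f hf; exact h2 f hf
    | succ j ih =>
      intro l hl h1 h2
      have h3 : ∀ f, Inv (ker K χ hχ) f → (l.comp T) f = 0 := by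
        refine ih (l.comp T) ?_ (fun f hf => ?_) (fun f hf => ?_)
        · refine LL_comp _ (fun y hy => ?_) hl
          have h4 : (evf y).comp T = (evf (t * y.1, y.2) - evf y : Fn G n p →ₗ[ZMod p] ZMod p) := by
            apply LinearMap.ext
            intro f
            rfl
          rw [h4]
          refine Submodule.sub_mem _ (Submodule.subset_span ⟨_, ?_, rfl⟩)
            (Submodule.subset_span ⟨_, hy, rfl⟩)
          obtain ⟨k, hk, s, hs, rfl⟩ := hy
          exact ⟨t * k, K.mul_mem ht hk, s, hs, by simp only [mul_assoc]⟩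
        · rw [LinearMap.comp_apply, ← hTΦ]
          exact h1 _ (hT f hf)
        · rw [LinearMap.comp_apply, ← Module.End.mul_apply, ← pow_succ']
          exact h2 f hf
      refine step_core hΦ h' ht ht1 hl (fun f hf => ?_) h1
      have h4 := h3 f hf
      rw [LinearMap.comp_apply] at h4
      have h5 : T f = tl t f - f := rfl
      rw [h5, map_sub, sub_eq_zero] at h4
      exact h4
  have hTp : ∀ f, Inv (ker K χ hχ) f → (T ^ p) f = 0 := by
    intro f hf
    have h1 : T ^ p = (tl t : Fn G n p →ₗ[ZMod p] Fn G n p) ^ p - 1 := by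
      have h2 : (Polynomial.X - 1 : Polynomial (ZMod p)) ^ p = Polynomial.X ^ p - 1 := by
        rw [sub_pow_char, one_pow]
      have h3 := congrArg (Polynomial.aeval (tl t : Module.End (ZMod p) (Fn G n p))) h2
      simp only [map_pow, map_sub, map_one, Polynomial.aeval_X] at h3
      exact h3
    have h3 : ∀ m : ℕ, ((tl t : Fn G n p →ₗ[ZMod p] Fn G n p) ^ m) f = tl (t ^ m) f := by
      intro m
      induction m with
      | zero => rw [pow_zero, pow_zero, tl_one]; rfl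
      | succ m ih => rw [pow_succ', Module.End.mul_apply, ih, tl_tl, pow_succ]
    rw [h1, LinearMap.sub_apply, h3, sub_eq_zero]
    refine hf _ ⟨K.pow_mem ht p, ?_⟩
    rw [char_pow hχ ht, CharP.cast_eq_zero, zero_mul]
  intro l hl h1 f hf
  refine key p l (LL_mono ?_ hl) h1 (fun g hg => by rw [hTp g hg, map_zero]) f hf
  intro s hs
  exact ⟨1, K.one_mem, s, hs, by simp⟩

/-- locally `p`-indicable groups -/
def LPI (p : ℕ) (N : Subgroup G) : Prop :=
  ∀ L : Subgroup G, L ≤ N → L.FG → L ≠ ⊥ → ∃ χ : G → ZMod p,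
    (∀ a ∈ L, ∀ b ∈ L, χ (a * b) = χ a + χ b) ∧ ∃ a ∈ L, χ a ≠ 0

/-- the main induction -/
theorem IP.bot {Φ : Fn G n p →ₗ[ZMod p] Fn G n p} (hΦ : ∀ g f, Φ (tl g f) = tl g (Φ f))
    {N : Subgroup G} (hN : LPI p N) (S : Finset (G × Fin n)) :
    ∀ (m : ℕ) (K : Subgroup G), K ≤ N → IP Φ K S →
      Set.ncard {q : (G × Fin n) × (G × Fin n) | q.1 ∈ S ∧ q.2 ∈ S ∧ q.2.2 = q.1.2 ∧
        q.2.1 * q.1.1⁻¹ ∈ K} = m → IP Φ ⊥ S := by
  classical
  intro m
  induction m using Nat.strong_induction_on with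
  | _ m ih =>
    intro K hK hIP hm
    set R : Subgroup G → Set ((G × Fin n) × (G × Fin n)) := fun K =>
      {q | q.1 ∈ S ∧ q.2 ∈ S ∧ q.2.2 = q.1.2 ∧ q.2.1 * q.1.1⁻¹ ∈ K} with hR
    have hfin : ∀ K, (R K).Finite := by
      intro K
      refine Set.Finite.subset (S ×ˢ S : Finset _).finite_toSet ?_
      rintro q ⟨h1, h2, _⟩
      exact Finset.mem_coe.mpr (Finset.mem_product.mpr ⟨h1, h2⟩)
    let K' : Subgroup G := Subgroup.closure ((fun q => q.2.1 * q.1.1⁻¹) '' R K)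
    have hK'K : K' ≤ K := by
      rw [Subgroup.closure_le]
      rintro _ ⟨q, hq, rfl⟩
      exact hq.2.2.2
    have hK'fg : K'.FG := (Subgroup.fg_iff _).mpr ⟨_, rfl, (hfin K).image _⟩
    have hIP' : IP Φ K' S := by
      refine hIP.sub hK'K ?_
      intro s hs s' hs' k hk h1
      apply Subgroup.subset_closure
      refine ⟨(s, s'), ⟨hs, hs', ?_, ?_⟩, ?_⟩
      · rw [h1]
      · change s'.1 * s.1⁻¹ ∈ K
        rw [h1]
        simpa using hk
      · change s'.1 * s.1⁻¹ = k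
        rw [h1]
        simp
    by_cases hbot : K' = ⊥
    · rw [hbot] at hIP'; exact hIP'
    obtain ⟨χ, hχ, a, ha, ha0⟩ := hN K' (hK'K.trans hK) hK'fg hbot
    -- the character is nontrivial on a generator
    have hgen : ∃ q ∈ R K, χ (q.2.1 * q.1.1⁻¹) ≠ 0 := by
      by_contra hcon
      push Not at hcon
      have h1 : K' ≤ ker K' χ hχ := by
        change Subgroup.closure _ ≤ _
        rw [Subgroup.closure_le]
        rintro _ ⟨q, hq, rfl⟩
        exact ⟨Subgroup.subset_closure ⟨q, hq, rfl⟩, hcon q hq⟩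
      exact ha0 (h1 ha).2
    have hlt : (R (ker K' χ hχ)).ncard < m := by
      rw [← hm]
      refine Set.ncard_lt_ncard ?_ (hfin K)
      obtain ⟨q, hq, hq0⟩ := hgen
      refine ⟨fun r hr => ⟨hr.1, hr.2.1, hr.2.2.1, hK'K hr.2.2.2.1⟩, fun hsub => hq0 ?_⟩
      exact (hsub hq).2.2.2.2
    exact ih _ hlt (ker K' χ hχ) ((fun x hx => hK (hK'K hx.1))) (hIP'.step hΦ ⟨a, ha, ha0⟩) rfl

end

end Pool.MP_79a731_al.H5
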