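import Pool.Agent.Work.MP_79a731_al.H5.Pind
import Pool.Agent.Work.MP_79a731_al.H5.Kaplansky

/-!
An idempotent matrix over an integral group ring whose image vanishes modulo a locally p-indicable
normal subgroup is zero.
-/

set_option autoImplicit false
set_option linter.unusedSectionVars false

namespace Pool.MP_79a731_al.H5

open Function

noncomputable section

variable {G : Type*} [Group G] {n : ℕ} {p : ℕ} [hp : Fact p.Prime]

/-- right translation of functions -/
def rt (G : Type*) [Group G] (p : ℕ) : G →* Module.End (ZMod p) (G → ZMod p) where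
  toFun h := LinearMap.funLeft _ _ fun g => g * h
  map_one' := by
    apply LinearMap.ext; intro f; funext g
    simp [LinearMap.funLeft_apply]
  map_mul' h h' := by
    apply LinearMap.ext; intro f; funext g
    simp [LinearMap.funLeft_apply, Module.End.mul_apply, mul_assoc]

lemma rt_apply (h : G) (f : G → ZMod p) (g : G) : rt G p h f g = f (g * h) := rfl

/-- the action of the group ring on functions -/
def RR (G : Type*) [Group G] (p : ℕ) :
    MonoidAlgebra ℤ G →ₐ[ℤ] Module.End (ZMod p) (G → ZMod p) :=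
  MonoidAlgebra.lift ℤ _ G (rt G p)

lemma RR_single (h : G) (a : ℤ) (f : G → ZMod p) (g : G) :
    RR G p (MonoidAlgebra.single h a) f g = a * f (g * h) := by
  rw [RR, MonoidAlgebra.lift_single]
  change a • (rt G p h f g) = _
  rw [rt_apply, zsmul_eq_mul]

lemma RR_apply (x : MonoidAlgebra ℤ G) (f : G → ZMod p) (g : G) :
    RR G p x f g = x.coeff.sum fun h a => (a : ZMod p) * f (g * h) := by
  induction x using MonoidAlgebra.induction_linear with
  | zero => simp
  | add x y hx hy =>
    rw [map_add, LinearMap.add_apply, Pi.add_apply, hx, hy, MonoidAlgebra.coeff_add,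
      Finsupp.sum_add_index']
    · intro a; simp
    · intro a b c; push_cast; ring
  | single h a =>
    rw [RR_single, MonoidAlgebra.coeff_single, Finsupp.sum_single_index]
    simp

/-- the action of matrices -/
def opM (e : Mt G n) : Fn G n p →ₗ[ZMod p] Fn G n p where
  toFun f y := ∑ j, RR G p (e y.2 j) (fun h => f (h, j)) y.1
  map_add' f f' := by
    funext y
    rw [Pi.add_apply, ← Finset.sum_add_distrib]
    refine Finset.sum_congr rfl fun j _ => ?_
    rw [← Pi.add_apply, ← map_add]
    rfl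
  map_smul' c f := by
    funext y
    rw [RingHom.id_apply, Pi.smul_apply, Finset.smul_sum]
    refine Finset.sum_congr rfl fun j _ => ?_
    rw [← Pi.smul_apply, ← map_smul]
    rfl

lemma opM_apply (e : Mt G n) (f : Fn G n p) (g : G) (i : Fin n) :
    opM e f (g, i) = ∑ j, RR G p (e i j) (fun h => f (h, j)) g := rfl

lemma opM_mul (e e' : Mt G n) (f : Fn G n p) : opM (e * e') f = opM e (opM e' f) := by
  funext ⟨g, i⟩
  rw [opM_apply, opM_apply]
  simp only [opM_apply]
  have h1 : ∀ j, (fun h : G => ∑ l, RR G p (e' j l) (fun h' => f (h', l)) h) =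
      ∑ l, RR G p (e' j l) (fun h' => f (h', l)) := by
    intro j; funext h; rw [Finset.sum_apply]
  simp_rw [h1, map_sum, Finset.sum_apply]
  rw [Finset.sum_comm]
  refine Finset.sum_congr rfl fun l _ => ?_
  rw [Matrix.mul_apply, map_sum, LinearMap.sum_apply, Finset.sum_apply]
  refine Finset.sum_congr rfl fun j _ => ?_
  rw [map_mul, Module.End.mul_apply]

lemma opM_tl (e : Mt G n) (g : G) (f : Fn G n p) : opM e (tl g f) = tl g (opM e f) := by
  funext ⟨h, i⟩
  rw [tl_apply, opM_apply, opM_apply]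
  refine Finset.sum_congr rfl fun j _ => ?_
  rw [RR_apply, RR_apply]
  refine Finset.sum_congr rfl fun k _ => ?_
  beta_reduce
  rw [tl_apply, mul_assoc]

/-- invariant functions are killed -/
lemma opM_inv (N : Subgroup G) [hN : N.Normal] (e : Mt G n)
    (h0 : ∀ i j, MonoidAlgebra.mapDomainRingHom ℤ (QuotientGroup.mk' N) (e i j) = 0)
    (f : Fn G n p) (hf : Inv N f) : opM e f = 0 := by
  funext ⟨g, i⟩
  rw [opM_apply, Pi.zero_apply]
  refine Finset.sum_eq_zero fun j _ => ?_
  rw [RR_apply]
  let φ : G ⧸ N → ZMod p := fun q => f (g * q.out, j)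
  have h1 : ∀ h : G, f (g * h, j) = φ (QuotientGroup.mk' N h) := by
    intro h
    have h2 : ((QuotientGroup.mk' N h).out : G ⧸ N) = QuotientGroup.mk' N h := Quotient.out_eq' _
    change ((QuotientGroup.mk' N h).out : G ⧸ N) = ((h : G) : G ⧸ N) at h2
    rw [QuotientGroup.eq] at h2
    have h3 : g * ((QuotientGroup.mk' N h).out⁻¹ * h) * g⁻¹ ∈ N := by
      exact hN.conj_mem _ h2 g
    have h4 : (g * (QuotientGroup.mk' N h).out) * ((QuotientGroup.mk' N h).out⁻¹ * h) *
        (g * (QuotientGroup.mk' N h).out)⁻¹ ∈ N := hN.conj_mem _ h2 _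
    have h5 := hf.apply h4 (g * (QuotientGroup.mk' N h).out, j)
    change _ = f (g * (QuotientGroup.mk' N h).out, j)
    rw [← h5]
    congr 2
    group
  have h2 := congrArg MonoidAlgebra.coeff (h0 i j)
  have h3 : (Finsupp.mapDomain (QuotientGroup.mk' N) (e i j).coeff) = 0 := by
    rw [← MonoidAlgebra.coeff_mapDomain]
    exact h2
  have h4 := Finsupp.sum_mapDomain_index (f := (QuotientGroup.mk' N)) (s := (e i j).coeff)
    (h := fun q (a : ℤ) => (a : ZMod p) * φ q) (by intro b; simp) (by intro b m m'; push_cast; ring)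
  rw [h3, Finsupp.sum_zero_index] at h4
  rw [h4]
  exact Finset.sum_congr rfl fun h _ => by beta_reduce; rw [h1]

theorem eq_zero_of_lpi (N : Subgroup G) [hN : N.Normal] (hlpi : LPI p N) (e : Mt G n)
    (he : e * e = e)
    (h0 : ∀ i j, MonoidAlgebra.mapDomainRingHom ℤ (QuotientGroup.mk' N) (e i j) = 0) :
    e = 0 := by
  classical
  let Φ : Fn G n p →ₗ[ZMod p] Fn G n p := 1 - opM e
  have hΦ : ∀ f, Φ f = f - opM e f := fun f => rfl
  have hΦtl : ∀ g f, Φ (tl g f) = tl g (Φ f) := by
    intro g f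
    rw [hΦ, hΦ, map_sub, opM_tl]
  let S : Finset (G × Fin n) := Finset.univ.biUnion fun i => Finset.univ.biUnion fun j =>
    (e i j).coeff.support.image fun h => (h, j)
  have hS : ∀ i j h, h ∈ (e i j).coeff.support → (h, j) ∈ S := by
    intro i j h hh
    rw [Finset.mem_biUnion]
    refine ⟨i, Finset.mem_univ _, ?_⟩
    rw [Finset.mem_biUnion]
    exact ⟨j, Finset.mem_univ _, Finset.mem_image_of_mem _ hh⟩
  have hI : IP Φ N (S : Set (G × Fin n)) := by
    intro l _ h1 f hf
    rw [← h1 f hf, hΦ, opM_inv N e h0 f hf, sub_zero]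
  have hI' : IP Φ ⊥ (S : Set (G × Fin n)) := IP.bot hΦtl hlpi S _ N le_rfl hI rfl
  have key : ∀ (i : Fin n) (f : Fn G n p), opM e f (1, i) = 0 := by
    intro i
    let l : Fn G n p →ₗ[ZMod p] ZMod p :=
      ∑ j, ∑ h ∈ (e i j).coeff.support, ((e i j).coeff h : ZMod p) • evf (h, j)
    have hl : l ∈ LL (S : Set (G × Fin n)) :=
      Submodule.sum_mem _ fun j _ => Submodule.sum_mem _ fun h hh =>
        Submodule.smul_mem _ _ (Submodule.subset_span ⟨_, hS i j h hh, rfl⟩)
    have hlf : ∀ f, l f = opM e f (1, i) := by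
      intro f
      rw [opM_apply]
      simp only [l, LinearMap.sum_apply, LinearMap.smul_apply, evf_apply, smul_eq_mul]
      refine Finset.sum_congr rfl fun j _ => ?_
      rw [RR_apply]
      refine Finset.sum_congr rfl fun h _ => ?_
      beta_reduce
      rw [one_mul]
    intro f
    rw [← hlf]
    refine hI' l hl (fun g _ => ?_) f (fun k hk => ?_)
    · rw [hlf, hΦ, map_sub, ← opM_mul, he, sub_self]; rfl
    · rw [Subgroup.mem_bot] at hk
      rw [hk, tl_one]
  have hdvd : ∀ i j h, ((e i j).coeff h : ZMod p) = 0 := by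
    intro i j h
    have h1 := key i (fun y => if y = (h, j) then 1 else 0)
    rw [opM_apply, Finset.sum_eq_single j] at h1
    · rw [RR_apply, Finsupp.sum] at h1
      simp only [one_mul, Prod.mk.injEq, and_true, mul_ite, mul_one, mul_zero] at h1
      rw [Finset.sum_ite_eq'] at h1
      split_ifs at h1 with h2
      · exact h1
      · rw [Finsupp.notMem_support_iff.mp h2]; simp
    · intro k _ hk
      rw [RR_apply]
      refine Finset.sum_eq_zero fun m _ => ?_
      beta_reduce
      rw [if_neg (fun h2 => hk (Prod.ext_iff.mp h2).2), mul_zero]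
    · intro h2; exact absurd (Finset.mem_univ _) h2
  have hdvd' : ∀ i j h, (p : ℤ) ∣ (e i j).coeff h := fun i j h => by
    rw [← ZMod.intCast_zmod_eq_zero_iff_dvd]; exact hdvd i j h
  obtain ⟨e', he'⟩ : ∃ e' : Mt G n, e = (p : ℤ) • e' := by
    refine ⟨Matrix.of fun i j => .ofCoeff ((e i j).coeff.mapRange (fun a => a / (p : ℤ))
      (by simp)), ?_⟩
    ext i j h
    rw [Matrix.smul_apply, Matrix.of_apply, MonoidAlgebra.coeff_smul, Finsupp.smul_apply]
    change _ = (p : ℤ) • ((e i j).coeff h / (p : ℤ))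
    rw [smul_eq_mul, Int.mul_ediv_cancel' (hdvd' i j h)]
  have h3 : ∀ m : ℕ, ∃ e' : Mt G n, e = ((p : ℤ) ^ m) • e' := by
    intro m
    induction m with
    | zero => exact ⟨e, by simp⟩
    | succ m ih =>
      obtain ⟨e1, he1⟩ := ih
      refine ⟨e' * e1, ?_⟩
      conv_lhs => rw [← he]
      nth_rewrite 1 [he']
      rw [he1, smul_mul_smul_comm]
      congr 1
      ring
  ext i j h
  rw [Matrix.zero_apply, MonoidAlgebra.coeff_zero, Finsupp.zero_apply]
  by_contra hne
  obtain ⟨e1, he1⟩ := h3 ((e i j).coeff h).natAbs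
  have h4 : (p : ℤ) ^ ((e i j).coeff h).natAbs ∣ (e i j).coeff h := by
    refine ⟨(e1 i j).coeff h, ?_⟩
    have h5 := congrArg (fun x : Mt G n => (x i j).coeff h) he1
    beta_reduce at h5
    rw [Matrix.smul_apply, MonoidAlgebra.coeff_smul, Finsupp.smul_apply, smul_eq_mul] at h5
    exact h5
  have h5 := Int.natAbs_dvd_natAbs.mpr h4
  rw [Int.natAbs_pow, Int.natAbs_natCast] at h5
  have h6 := Nat.le_of_dvd (Int.natAbs_pos.mpr hne) h5
  have h7 : ((e i j).coeff h).natAbs < p ^ ((e i j).coeff h).natAbs :=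
    Nat.lt_pow_self hp.out.one_lt
  omega

end

end Pool.MP_79a731_al.H5
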