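import Pool.Agent.Work.MP_79a731_al.H5.Supp
import Pool.Agent.Work.MP_79a731_al.H5.Pind2

/-!
Change of groups and the minimal normal subgroup.
-/

set_option autoImplicit false

namespace Pool.MP_79a731_al.H5

open Function

noncomputable section

variable {G G' G'' : Type*} [Group G] [Group G'] [Group G''] {n : ℕ}

/-- the induced map on matrices -/
def mp (n : ℕ) (f : G →* G') : Mt G n →+* Mt G' n := (MonoidAlgebra.mapDomainRingHom ℤ f).mapMatrix

lemma mp_apply (f : G →* G') (e : Mt G n) (i j : Fin n) :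
    mp n f e i j = MonoidAlgebra.mapDomainRingHom ℤ f (e i j) := rfl

lemma mp_comp (f : G →* G') (g : G' →* G'') (e : Mt G n) :
    mp n g (mp n f e) = mp n (g.comp f) e := by
  apply Matrix.ext
  intro i j
  rw [mp_apply, mp_apply, mp_apply, MonoidAlgebra.mapDomainRingHom_comp]
  rfl

lemma mp_idem (f : G →* G') {e : Mt G n} (he : e * e = e) : mp n f e * mp n f e = mp n f e := by
  rw [← map_mul, he]

lemma cc_map (f : G →* G') (x : MonoidAlgebra ℤ G) :
    cc (MonoidAlgebra.mapDomainRingHom ℤ f x) = Finsupp.mapDomain (ConjClasses.map f) (cc x) := by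
  rw [cc_apply, cc_apply]
  have h1 : (MonoidAlgebra.mapDomainRingHom ℤ f x).coeff = Finsupp.mapDomain f x.coeff := by
    rw [← MonoidAlgebra.coeff_mapDomain]
    rfl
  rw [h1, ← Finsupp.mapDomain_comp, ← Finsupp.mapDomain_comp]
  rfl

lemma hs_map (f : G →* G') (e : Mt G n) :
    hs (mp n f e) = Finsupp.mapDomain (ConjClasses.map f) (hs e) := by
  rw [hs_apply, hs_apply, ← Finsupp.mapDomain.addMonoidHom_apply, map_sum]
  exact Finset.sum_congr rfl fun i _ => cc_map f _

lemma tr_eq_hs (e : Mt G n) : tr e = hs e (ConjClasses.mk 1) := by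
  classical
  rw [hs_apply, Finsupp.finsetSum_apply]
  refine Finset.sum_congr rfl fun i _ => ?_
  rw [cc_apply]
  generalize (e i i).coeff = x
  rw [Finsupp.mapDomain, Finsupp.sum_apply, Finsupp.sum]
  have h1 : ∀ g : G, (Finsupp.single (ConjClasses.mk g) (x g)) (ConjClasses.mk 1) =
      if g = 1 then x g else 0 := by
    intro g
    rw [Finsupp.single_apply]
    have h2 : ConjClasses.mk g = ConjClasses.mk 1 ↔ g = 1 := by
      rw [ConjClasses.mk_eq_mk_iff_isConj]
      exact isConj_one_left
    simp only [h2]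
  simp_rw [h1]
  rw [Finset.sum_ite_eq']
  split_ifs with h
  · rfl
  · exact Finsupp.notMem_support_iff.mp h

/-- the trace of the image in a quotient -/
lemma tr_quot (e : Mt G n) (V : Subgroup G) [V.Normal] :
    tr (mp n (QuotientGroup.mk' V) e) = ∑ c ∈ XV e V, hs e c := by
  classical
  rw [tr_eq_hs, hs_map, Finsupp.mapDomain, Finsupp.sum_apply, Finsupp.sum]
  unfold XV
  rw [Finset.sum_filter]
  refine Finset.sum_congr rfl fun c _ => ?_
  rw [Finsupp.single_apply]
  have h1 : ConjClasses.map (QuotientGroup.mk' V) c = ConjClasses.mk 1 ↔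
      ∀ g, ConjClasses.mk g = c → g ∈ V := by
    constructor
    · rintro h g rfl
      have h2 : ConjClasses.mk (QuotientGroup.mk' V g) = ConjClasses.mk 1 := h
      rw [ConjClasses.mk_eq_mk_iff_isConj] at h2
      have h3 := isConj_one_left.mp h2
      exact (QuotientGroup.eq_one_iff g).mp h3
    · intro h
      induction c using Quotient.inductionOn with
      | h g =>
        have h2 := h g rfl
        change ConjClasses.mk (QuotientGroup.mk' V g) = ConjClasses.mk 1
        congr 1
        exact (QuotientGroup.eq_one_iff g).mpr h2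
  simp only [h1]

lemma quot_eq_zero_iff {e : Mt G n} (he : e * e = e) (V : Subgroup G) [V.Normal] :
    mp n (QuotientGroup.mk' V) e = 0 ↔ ∑ c ∈ XV e V, hs e c = 0 := by
  rw [← tr_quot]
  constructor
  · intro h
    rw [h]
    simp [tr]
  · exact eq_zero_of_tr _ (mp_idem _ he)

lemma one_mem_XX {e : Mt G n} (he : e * e = e) (h0 : e ≠ 0) : ConjClasses.mk 1 ∈ XX e := by
  rw [mem_XX, ← tr_eq_hs]
  exact (tr_pos e he h0).ne'

/-- if the image in a quotient vanishes then the subgroup contains a nontrivial class of the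
support -/
lemma exists_class {e : Mt G n} (he : e * e = e) (h0 : e ≠ 0) (V : Subgroup G) [V.Normal]
    (hV : mp n (QuotientGroup.mk' V) e = 0) : ∃ g, g ≠ 1 ∧ ConjClasses.mk g ∈ XV e V := by
  classical
  by_contra hcon
  push Not at hcon
  have h1 : XV e V = {ConjClasses.mk 1} := by
    ext c
    induction c using Quotient.inductionOn with
    | h g =>
      change ConjClasses.mk g ∈ XV e V ↔ ConjClasses.mk g ∈ ({ConjClasses.mk 1} : Finset _)
      rw [Finset.mem_singleton]
      constructor
      · intro h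
        by_cases hg : g = 1
        · rw [hg]
        · exact absurd h (hcon g hg)
      · intro h
        rw [h, mem_XV]
        exact ⟨one_mem_XX he h0, V.one_mem⟩
  have h2 := (quot_eq_zero_iff he V).mp hV
  rw [h1, Finset.sum_singleton, ← tr_eq_hs] at h2
  exact (tr_pos e he h0).ne' h2

/-- the normal subgroup generated by the classes -/
lemma exists_min {e : Mt G n} (he : e * e = e) (N : Subgroup G) [N.Normal]
    (hN : mp n (QuotientGroup.mk' N) e = 0) :
    ∃ (V : Subgroup G) (_ : V.Normal), V ≤ N ∧ mp n (QuotientGroup.mk' V) e = 0 ∧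
      (∃ F : Finset G, V = Subgroup.normalClosure (F : Set G)) ∧
      ∀ (W : Subgroup G) (_ : W.Normal), W < V → mp n (QuotientGroup.mk' W) e ≠ 0 := by
  classical
  let P : ℕ → Prop := fun m => ∃ (V : Subgroup G) (_ : V.Normal), V ≤ N ∧
    mp n (QuotientGroup.mk' V) e = 0 ∧ (XV e V).card = m
  have hP : ∃ m, P m := ⟨_, N, inferInstance, le_rfl, hN, rfl⟩
  obtain ⟨V1, hV1n, hV1N, hV1, hcard⟩ := Nat.find_spec hP
  have hmin : ∀ (W : Subgroup G) (_ : W.Normal), W ≤ N → mp n (QuotientGroup.mk' W) e = 0 →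
      Nat.find hP ≤ (XV e W).card := fun W hW h1 h2 => Nat.find_min' hP ⟨W, hW, h1, h2, rfl⟩
  let F : Finset G := (XV e V1).image Quotient.out
  let V : Subgroup G := Subgroup.normalClosure (F : Set G)
  have hF : ∀ c ∈ XV e V1, Quotient.out c ∈ V := fun c hc =>
    Subgroup.subset_normalClosure (Finset.mem_coe.mpr (Finset.mem_image_of_mem _ hc))
  have hmk : ∀ c : ConjClasses G, ConjClasses.mk (Quotient.out c) = c := fun c =>
    Quotient.out_eq c
  have hVV1 : V ≤ V1 := by
    refine Subgroup.normalClosure_le_normal ?_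
    intro g hg
    obtain ⟨c, hc, rfl⟩ := Finset.mem_image.mp (Finset.mem_coe.mp hg)
    rw [← hmk c] at hc
    exact (mem_XV.mp hc).2
  have hX : XV e V = XV e V1 := by
    ext c
    rw [← hmk c, mem_XV, mem_XV]
    constructor
    · rintro ⟨h1, h2⟩; exact ⟨h1, hVV1 h2⟩
    · intro h
      refine ⟨h.1, hF c ?_⟩
      rw [← hmk c, mem_XV]; exact h
  have hV : mp n (QuotientGroup.mk' V) e = 0 := by
    rw [quot_eq_zero_iff he, hX, ← quot_eq_zero_iff he]
    exact hV1
  refine ⟨V, inferInstance, hVV1.trans hV1N, hV, ⟨F, rfl⟩, ?_⟩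
  intro W hW hWV h0
  have h1 := hmin W hW (hWV.le.trans (hVV1.trans hV1N)) h0
  rw [← hcard, ← hX] at h1
  have h2 : XV e W ⊆ XV e V := by
    intro c
    rw [← hmk c, mem_XV, mem_XV]
    rintro ⟨h1, h2⟩; exact ⟨h1, hWV.le h2⟩
  have h3 := Finset.eq_of_subset_of_card_le h2 h1
  apply hWV.not_ge
  refine Subgroup.normalClosure_le_normal ?_
  intro g hg
  obtain ⟨c, hc, rfl⟩ := Finset.mem_image.mp (Finset.mem_coe.mp hg)
  rw [← hX, ← h3, ← hmk c] at hc
  exact (mem_XV.mp hc).2

lemma quot_quot_of_le (W V : Subgroup G) [W.Normal] [V.Normal] {e : Mt G n}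
    (hV : mp n (QuotientGroup.mk' V) e = 0) (K : Subgroup (G ⧸ W)) [K.Normal]
    (h1 : V ≤ K.comap (QuotientGroup.mk' W)) :
    mp n (QuotientGroup.mk' K) (mp n (QuotientGroup.mk' W) e) = 0 := by
  rw [mp_comp]
  have h2 : (QuotientGroup.mk' K).comp (QuotientGroup.mk' W) =
      (QuotientGroup.lift V ((QuotientGroup.mk' K).comp
        (QuotientGroup.mk' W)) (fun v hv => by
          rw [MonoidHom.mem_ker, MonoidHom.comp_apply]
          exact (QuotientGroup.eq_one_iff _).mpr (h1 hv))).comp (QuotientGroup.mk' V) := by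
    ext g; rfl
  rw [h2, ← mp_comp, hV, map_zero]

lemma quot_quot (W V : Subgroup G) [W.Normal] [V.Normal] {e : Mt G n}
    (hV : mp n (QuotientGroup.mk' V) e = 0) :
    haveI : (V.map (QuotientGroup.mk' W)).Normal :=
      Subgroup.Normal.map inferInstance _ (QuotientGroup.mk'_surjective W)
    mp n (QuotientGroup.mk' (V.map (QuotientGroup.mk' W))) (mp n (QuotientGroup.mk' W) e) = 0 := by
  have : (V.map (QuotientGroup.mk' W)).Normal :=
      Subgroup.Normal.map inferInstance _ (QuotientGroup.mk'_surjective W)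
  exact quot_quot_of_le W V hV _ (Subgroup.le_comap_map _ _)

end

end Pool.MP_79a731_al.H5
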