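import Pool.Agent.Work.MP_79a731_al.H5.Kaplansky

/-!
Sums of invariant functions over permutations of prime power order.
-/

set_option autoImplicit false

namespace Pool.MP_79a731_al.H5

open Function

section
variable {M : Type*} [AddCommGroup M]

/-- free orbits: the sum is divisible by the order -/
lemma sum_free {W : Type*} [Fintype W] (p m : ℕ) (hp : p.Prime) (σ : Equiv.Perm W)
    (h1 : σ ^ p ^ (m + 1) = 1) (h2 : ∀ w, (σ ^ p ^ m) w ≠ w) (f : W → M)
    (hf : ∀ w, f (σ w) = f w) (k : ℤ) (hk : ∀ w, ∃ m', f w = k • m') :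
    ∃ m', ∑ w, f w = ((p : ℤ) ^ (m + 1) * k) • m' := by
  classical
  by_cases hW : IsEmpty W
  · exact ⟨0, by simp⟩
  rw [not_isEmpty_iff] at hW
  obtain ⟨w0⟩ := hW
  have hord : orderOf σ = p ^ (m + 1) := by
    have := Fact.mk hp
    refine orderOf_eq_prime_pow ?_ h1
    intro h
    exact h2 w0 (by rw [h]; rfl)
  -- powers of the permutation which fix a point are trivial
  have hper : ∀ (w : W) (i : ℕ), (σ ^ i) w = w → σ ^ i = 1 := by
    intro w i hi
    have h3 : IsPeriodicPt σ i w := by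
      rw [Equiv.Perm.coe_pow] at hi
      exact hi
    have h4 : IsPeriodicPt σ (p ^ (m + 1)) w := by
      have h5 : (σ ^ p ^ (m + 1)) w = w := by rw [h1]; rfl
      rw [Equiv.Perm.coe_pow] at h5
      exact h5
    have h5 : minimalPeriod σ w ∣ p ^ (m + 1) := h4.minimalPeriod_dvd
    have h6 : ¬ minimalPeriod σ w ∣ p ^ m := by
      intro h
      apply h2 w
      have h7 := (isPeriodicPt_iff_minimalPeriod_dvd (f := σ) (x := w)).mpr h
      rw [Equiv.Perm.coe_pow]
      exact h7
    have h7 : minimalPeriod σ w = p ^ (m + 1) := by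
      rw [Nat.dvd_prime_pow hp] at h5
      obtain ⟨j, hj, hj'⟩ := h5
      have h8 : j = m + 1 := by
        by_contra hne
        apply h6
        rw [hj']
        exact pow_dvd_pow p (by omega)
      rw [hj', h8]
    have h8 := h3.minimalPeriod_dvd
    rw [h7, ← hord] at h8
    exact orderOf_dvd_iff_pow_eq_one.mp h8
  have hstab : ∀ w : W, MulAction.stabilizer (Subgroup.zpowers σ) w = ⊥ := by
    intro w
    rw [eq_bot_iff]
    rintro ⟨τ, hτ⟩ hw
    rw [MulAction.mem_stabilizer_iff] at hw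
    rw [Subgroup.mem_bot]
    apply Subtype.ext
    rw [← mem_powers_iff_mem_zpowers] at hτ
    obtain ⟨i, rfl⟩ := hτ
    exact hper w i hw
  let e := MulAction.selfEquivOrbitsQuotientProd hstab
  have hfz : ∀ (τ : Subgroup.zpowers σ) (w : W), f (τ • w) = f w := by
    have h3 : ∀ (i : ℕ) (w : W), f ((σ ^ i) w) = f w := by
      intro i w
      induction i with
      | zero => rfl
      | succ i ih => rw [pow_succ', Equiv.Perm.mul_apply, hf, ih]
    rintro ⟨τ, hτ⟩ w
    rw [← mem_powers_iff_mem_zpowers] at hτ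
    obtain ⟨i, rfl⟩ := hτ
    exact h3 i w
  have he : ∀ w, (e w).1 = Quotient.mk'' w := fun w => rfl
  have hfe : ∀ x, f (e.symm x) = f x.1.out := by
    intro x
    have h3 : x.1 = Quotient.mk'' (e.symm x) := by rw [← he, e.apply_symm_apply]
    have h4 : (Quotient.mk'' x.1.out : Quotient (MulAction.orbitRel (Subgroup.zpowers σ) W)) =
        Quotient.mk'' (e.symm x) := by rw [Quotient.out_eq', h3]
    rw [Quotient.eq'', MulAction.orbitRel_apply] at h4
    obtain ⟨τ, hτ⟩ := h4
    rw [← hτ]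
    exact (hfz τ _).symm
  choose g hg using fun ω : Quotient (MulAction.orbitRel (Subgroup.zpowers σ) W) => hk ω.out
  refine ⟨∑ ω, g ω, ?_⟩
  have hcard : Fintype.card (Subgroup.zpowers σ) = p ^ (m + 1) := by
    rw [Fintype.card_zpowers, hord]
  rw [← e.symm.sum_comp f, Fintype.sum_prod_type]
  simp_rw [hfe, Finset.sum_const, Finset.card_univ, hcard]
  rw [Finset.smul_sum]
  refine Finset.sum_congr rfl fun ω _ => ?_
  rw [hg ω, ← natCast_zsmul, smul_smul]
  push_cast
  rfl

/-- invariant sums over a permutation of prime power order -/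
lemma sum_rot (p : ℕ) (hp : p.Prime) (K m : ℕ) (hm : m ≤ K) : ∀ {W : Type*} [Fintype W]
    (σ : Equiv.Perm W) (_ : σ ^ p ^ m = 1) (f : W → M) (_ : ∀ w, f (σ w) = f w)
    (_ : ∀ w, ∀ j ≤ m, (σ ^ p ^ j) w = w → ∃ m', f w = ((p : ℤ) ^ (K - j)) • m'),
    ∃ m', ∑ w, f w = ((p : ℤ) ^ K) • m' := by
  classical
  induction m with
  | zero =>
    intro W _ σ h1 f hf hd
    choose g hg using fun w => hd w 0 le_rfl (by rw [h1]; rfl)
    refine ⟨∑ w, g w, ?_⟩
    rw [Finset.smul_sum]
    refine Finset.sum_congr rfl fun w _ => ?_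
    rw [hg w, Nat.sub_zero]
  | succ m ih =>
    intro W _ σ h1 f hf hd
    have hinv : ∀ w, (σ ^ p ^ m) (σ w) = σ w ↔ (σ ^ p ^ m) w = w := by
      intro w
      have h2 : (σ ^ p ^ m) (σ w) = σ ((σ ^ p ^ m) w) := by
        rw [← Equiv.Perm.mul_apply, ← Equiv.Perm.mul_apply, (Commute.refl σ).pow_left _ |>.eq]
      rw [h2, σ.injective.eq_iff]
    -- the two parts
    let σ1 : Equiv.Perm {w // (σ ^ p ^ m) w = w} := σ.subtypePerm (fun w => hinv w)
    let σ2 : Equiv.Perm {w // ¬ (σ ^ p ^ m) w = w} := σ.subtypePerm (fun w => not_congr (hinv w))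
    have hσ1 : ∀ (i : ℕ) w, (((σ1 ^ i) w : {w // (σ ^ p ^ m) w = w}) : W) = (σ ^ i) w := by
      intro i w
      rw [Equiv.Perm.subtypePerm_pow]
      rfl
    have hσ2 : ∀ (i : ℕ) w, (((σ2 ^ i) w : {w // ¬ (σ ^ p ^ m) w = w}) : W) = (σ ^ i) w := by
      intro i w
      rw [Equiv.Perm.subtypePerm_pow]
      rfl
    obtain ⟨a, ha⟩ := ih (by omega) σ1 (by
      ext w
      rw [hσ1]
      exact w.2) (fun w => f w) (fun w => hf w) (by
      intro w j hj hw
      refine hd w j (by omega) ?_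
      have h3 := congrArg Subtype.val hw
      rw [hσ1] at h3
      exact h3)
    obtain ⟨b, hb⟩ := sum_free p m hp σ2 (by
      ext w
      rw [hσ2, h1]
      rfl) (by
      intro w hw
      have h3 := congrArg Subtype.val hw
      rw [hσ2] at h3
      exact w.2 h3) (fun w => f w) (fun w => hf w) ((p : ℤ) ^ (K - (m + 1))) (by
      intro w
      refine hd w (m + 1) le_rfl ?_
      rw [h1]; rfl)
    refine ⟨a + b, ?_⟩
    rw [smul_add, ← ha]
    have h4 : ((p : ℤ) ^ K) • b = ((p : ℤ) ^ (m + 1) * (p : ℤ) ^ (K - (m + 1))) • b := by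
      rw [← pow_add]
      congr 2
      omega
    rw [h4, ← hb]
    exact (Fintype.sum_subtype_add_sum_subtype _ f).symm

end

end Pool.MP_79a731_al.H5
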