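import Pool.Agent.Work.MP_79a731_al.H5.Frob2

/-!
The support of the Hattori-Stallings rank; copies of the rational numbers.
-/

set_option autoImplicit false

namespace Pool.MP_79a731_al.H5

open Function Finsupp

noncomputable section

variable {G : Type*} [Group G] {n : ℕ}

/-- the support of the rank -/
def XX (e : Mt G n) : Finset (ConjClasses G) := (hs e).support

open Classical in
/-- the classes of the support which lie in a normal subgroup -/
def XV (e : Mt G n) (V : Subgroup G) : Finset (ConjClasses G) :=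
  (XX e).filter fun c => ∀ g, ConjClasses.mk g = c → g ∈ V

lemma mem_XX {e : Mt G n} {c : ConjClasses G} : c ∈ XX e ↔ hs e c ≠ 0 := Finsupp.mem_support_iff

lemma mem_XV {e : Mt G n} {V : Subgroup G} [hV : V.Normal] {g : G} :
    ConjClasses.mk g ∈ XV e V ↔ ConjClasses.mk g ∈ XX e ∧ g ∈ V := by
  classical
  unfold XV
  rw [Finset.mem_filter]
  refine and_congr Iff.rfl ⟨fun h => h g rfl, fun h k hk => ?_⟩
  rw [ConjClasses.mk_eq_mk_iff_isConj, isConj_iff] at hk
  obtain ⟨c, hc⟩ := hk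
  have h1 : k = c⁻¹ * g * c⁻¹⁻¹ := by rw [← hc]; group
  rw [h1]
  exact hV.conj_mem g h c⁻¹

lemma XV_subset (e : Mt G n) (V : Subgroup G) : XV e V ⊆ XX e := by
  classical
  exact Finset.filter_subset _ _

lemma image_XX (e : Mt G n) (he : e * e = e) [DecidableEq (ConjClasses G)] (m : ℕ) (hm : m ≠ 0) :
    (XX e).image (cpow m) = XX e ∧ Set.InjOn (cpow m) (XX e : Set (ConjClasses G)) := by
  have h1 : XX e ⊆ (XX e).image (cpow m) := by
    have h2 : (Finsupp.mapDomain (cpow m) (hs e)).support ⊆ (hs e).support.image (cpow m) :=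
      Finsupp.mapDomain_support
    rw [hs_frob e he m hm] at h2
    exact h2
  have h2 := Finset.eq_of_subset_of_card_le h1 Finset.card_image_le
  refine ⟨h2.symm, ?_⟩
  rw [← Finset.card_image_iff, ← h2]

lemma pow_mem_XX {e : Mt G n} (he : e * e = e) {g : G} (hg : ConjClasses.mk g ∈ XX e) {m : ℕ}
    (hm : m ≠ 0) : ConjClasses.mk (g ^ m) ∈ XX e := by
  classical
  rw [← (image_XX e he m hm).1]
  exact Finset.mem_image_of_mem _ hg

/-- there are no torsion classes -/
lemma eq_one_of_pow {e : Mt G n} (he : e * e = e) {g : G} (hg : ConjClasses.mk g ∈ XX e) {m : ℕ}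
    (hm : m ≠ 0) (h : g ^ m = 1) : g = 1 := by
  classical
  have h1 := pow_mem_XX he hg hm
  have h2 := (image_XX e he m hm).2 hg h1 (by
    rw [cpow_mk, cpow_mk, h, one_pow])
  rw [h, ConjClasses.mk_eq_mk_iff_isConj] at h2
  exact (isConj_one_right.mp h2.symm)

lemma pow_mem_XV {e : Mt G n} (he : e * e = e) {V : Subgroup G} [V.Normal] {g : G}
    (hg : ConjClasses.mk g ∈ XV e V) {m : ℕ} (hm : m ≠ 0) : ConjClasses.mk (g ^ m) ∈ XV e V := by
  rw [mem_XV] at hg ⊢
  exact ⟨pow_mem_XX he hg.1 hm, V.pow_mem hg.2 m⟩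

/-- roots -/
lemma exists_root {e : Mt G n} (he : e * e = e) {V : Subgroup G} [V.Normal] {g : G}
    (hg : ConjClasses.mk g ∈ XV e V) {m : ℕ} (hm : m ≠ 0) :
    ∃ h, ConjClasses.mk h ∈ XV e V ∧ h ^ m = g := by
  classical
  have h1 : (XV e V).image (cpow m) ⊆ XV e V := by
    intro c hc
    rw [Finset.mem_image] at hc
    obtain ⟨d, hd, rfl⟩ := hc
    induction d using Quotient.inductionOn with
    | h k => exact pow_mem_XV he hd hm
  have h2 : (XV e V).card ≤ ((XV e V).image (cpow m)).card := by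
    rw [Finset.card_image_of_injOn]
    exact (image_XX e he m hm).2.mono (by exact_mod_cast XV_subset e V)
  have h3 := Finset.eq_of_subset_of_card_le h1 h2
  rw [← h3, Finset.mem_image] at hg
  obtain ⟨c, hc, hc'⟩ := hg
  induction c using Quotient.inductionOn with
  | h k =>
    have h4 : ConjClasses.mk (k ^ m) = ConjClasses.mk g := hc'
    rw [ConjClasses.mk_eq_mk_iff_isConj, isConj_iff] at h4
    obtain ⟨a, ha⟩ := h4
    refine ⟨a * k * a⁻¹, ?_, by rw [conj_pow, ha]⟩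
    have h5 : ConjClasses.mk (a * k * a⁻¹) = ConjClasses.mk k := by
      rw [ConjClasses.mk_eq_mk_iff_isConj, isConj_iff]
      exact ⟨a⁻¹, by group⟩
    rw [h5]
    exact hc

/-! ### the homomorphism from the rationals -/

open Nat in
lemma seq_aux {x : ℕ → G} (hx : ∀ k, x (k + 1) ^ (k + 1) = x k) (K L : ℕ) (hKL : K ≤ L) :
    ∀ a b : ℤ, a * (L ! : ℤ) = b * (K ! : ℤ) → x K ^ a = x L ^ b := by
  induction L, hKL using Nat.le_induction with
  | base =>
    intro a b h
    have : ((K ! : ℕ) : ℤ) ≠ 0 := by exact_mod_cast Nat.factorial_ne_zero K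
    rw [mul_right_cancel₀ this h]
  | succ L hL ih =>
    intro a b h
    obtain ⟨c, hc⟩ := Nat.factorial_dvd_factorial hL
    have h0 : ((K ! : ℕ) : ℤ) ≠ 0 := by exact_mod_cast Nat.factorial_ne_zero K
    have h1 : a * (L ! : ℤ) = (a * c) * (K ! : ℤ) := by rw [hc]; push_cast; ring
    have h2 : b = ((L + 1 : ℕ) : ℤ) * (a * c) := by
      apply mul_right_cancel₀ h0
      rw [← h, Nat.factorial_succ, hc]
      push_cast
      ring
    rw [ih a (a * c) h1, h2, zpow_mul (x (L + 1)) ((L + 1 : ℕ) : ℤ), zpow_natCast, hx]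

open Nat in
/-- the value at a rational number -/
def phi (x : ℕ → G) (q : ℚ) : G := x q.den ^ (q.num * ((q.den - 1)! : ℤ))

open Nat in
lemma phi_eq {x : ℕ → G} (hx : ∀ k, x (k + 1) ^ (k + 1) = x k) (q : ℚ) (K : ℕ) (b : ℤ)
    (hb : (b : ℚ) = q * (K ! : ℚ)) : phi x q = x K ^ b := by
  have h1 : ((q.num * ((q.den - 1)! : ℤ) : ℤ) : ℚ) = q * (q.den ! : ℚ) := by
    rw [← Nat.mul_factorial_pred q.den_nz]
    push_cast
    rw [← mul_assoc, Rat.mul_den_eq_num]
  have h2 : (q.num * ((q.den - 1)! : ℤ)) * (K ! : ℤ) = b * (q.den ! : ℤ) := by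
    have h3 : (((q.num * ((q.den - 1)! : ℤ)) * (K ! : ℤ) : ℤ) : ℚ) =
        ((b * (q.den ! : ℤ) : ℤ) : ℚ) := by
      rw [Int.cast_mul, h1, Int.cast_mul, hb]
      push_cast
      ring
    exact_mod_cast h3
  rcases le_total q.den K with h | h
  · exact seq_aux hx _ _ h _ _ h2
  · exact (seq_aux hx _ _ h _ _ h2.symm).symm

open Nat in
lemma exists_den (q : ℚ) (K : ℕ) (h : q.den ∣ K) (hK : K ≠ 0) :
    ∃ b : ℤ, (b : ℚ) = q * (K ! : ℚ) := by
  obtain ⟨c, hc⟩ := h.trans (Nat.dvd_factorial (Nat.pos_of_ne_zero hK) le_rfl)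
  refine ⟨q.num * c, ?_⟩
  rw [hc]
  push_cast
  rw [← mul_assoc, Rat.mul_den_eq_num]

/-- the homomorphism from the rationals -/
def phiHom (x : ℕ → G) (hx : ∀ k, x (k + 1) ^ (k + 1) = x k) : Multiplicative ℚ →* G where
  toFun q := phi x q.toAdd
  map_one' := by
    change phi x 0 = 1
    simp [phi]
  map_mul' q q' := by
    change phi x (q.toAdd + q'.toAdd) = phi x q.toAdd * phi x q'.toAdd
    generalize q.toAdd = a
    generalize q'.toAdd = a'
    have h0 : a.den * a'.den ≠ 0 := mul_ne_zero a.den_nz a'.den_nz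
    obtain ⟨b, hb⟩ := exists_den a (a.den * a'.den) (dvd_mul_right _ _) h0
    obtain ⟨b', hb'⟩ := exists_den a' (a.den * a'.den) (dvd_mul_left _ _) h0
    rw [phi_eq hx a _ b hb, phi_eq hx a' _ b' hb', ← zpow_add,
      phi_eq hx (a + a') (a.den * a'.den) (b + b')]
    push_cast
    rw [hb, hb']
    ring

lemma phiHom_apply (x : ℕ → G) (hx : ∀ k, x (k + 1) ^ (k + 1) = x k) (q : ℚ) :
    phiHom x hx (Multiplicative.ofAdd q) = phi x q := rfl

/-- copies of the rational numbers -/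
theorem exists_rat {e : Mt G n} (he : e * e = e) {V : Subgroup G} [V.Normal] {g : G}
    (hg : ConjClasses.mk g ∈ XV e V) (hg1 : g ≠ 1) :
    ∃ φ : Multiplicative ℚ →* G, Injective φ ∧ φ (Multiplicative.ofAdd 1) = g ∧
      ∀ q, q ≠ 1 → ConjClasses.mk (φ q) ∈ XV e V ∨ ConjClasses.mk (φ q)⁻¹ ∈ XV e V := by
  choose f hf hf' using fun (k : ℕ) (y : {y : G // ConjClasses.mk y ∈ XV e V}) =>
    exists_root he y.2 (Nat.succ_ne_zero k)
  let X : ℕ → {y : G // ConjClasses.mk y ∈ XV e V} :=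
    fun k => Nat.rec ⟨g, hg⟩ (fun k y => ⟨f k y, hf k y⟩) k
  let x : ℕ → G := fun k => (X k).1
  have hx : ∀ k, x (k + 1) ^ (k + 1) = x k := fun k => hf' k (X k)
  have hmem : ∀ k, ConjClasses.mk (x k) ∈ XV e V := fun k => (X k).2
  have hx0 : x 0 = g := rfl
  have hphi1 : phi x 1 = g := by
    rw [phi_eq hx 1 0 1 (by simp), hx0, zpow_one]
  have hne : ∀ k, x k ≠ 1 := by
    intro k h
    apply hg1
    rw [← hphi1, phi_eq hx 1 k (Nat.factorial k) (by push_cast; ring), h, one_zpow]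
  refine ⟨phiHom x hx, ?_, hphi1, ?_⟩
  · rw [injective_iff_map_eq_one]
    intro q hq
    by_contra hq1
    have h1 : phi x q.toAdd = 1 := hq
    have h0 : q.toAdd ≠ 0 := hq1
    have h2 : q.toAdd.num * ((Nat.factorial (q.toAdd.den - 1) : ℕ) : ℤ) ≠ 0 :=
      mul_ne_zero (Rat.num_ne_zero.mpr h0) (by exact_mod_cast Nat.factorial_ne_zero _)
    unfold phi at h1
    apply hne q.toAdd.den
    have h3 := mem_XV.mp (hmem q.toAdd.den)
    refine eq_one_of_pow he h3.1 (Int.natAbs_ne_zero.mpr h2) ?_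
    rw [← zpow_natCast]
    rcases Int.natAbs_eq (q.toAdd.num * ((Nat.factorial (q.toAdd.den - 1) : ℕ) : ℤ)) with h4 | h4
    · rw [← h4]; exact h1
    · rw [← neg_eq_iff_eq_neg.mpr h4, zpow_neg, h1, inv_one]
  · intro q hq
    have h0 : q.toAdd ≠ 0 := hq
    have h2 : q.toAdd.num * ((Nat.factorial (q.toAdd.den - 1) : ℕ) : ℤ) ≠ 0 :=
      mul_ne_zero (Rat.num_ne_zero.mpr h0) (by exact_mod_cast Nat.factorial_ne_zero _)
    have h1 : phiHom x hx q = x q.toAdd.den ^
      (q.toAdd.num * ((Nat.factorial (q.toAdd.den - 1) : ℕ) : ℤ)) := rfl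
    rw [h1]
    rcases Int.natAbs_eq (q.toAdd.num * ((Nat.factorial (q.toAdd.den - 1) : ℕ) : ℤ)) with h4 | h4
    · left
      rw [h4, zpow_natCast]
      exact pow_mem_XV he (hmem _) (Int.natAbs_ne_zero.mpr h2)
    · right
      rw [← zpow_neg, neg_eq_iff_eq_neg.mpr h4, zpow_natCast]
      exact pow_mem_XV he (hmem _) (Int.natAbs_ne_zero.mpr h2)

end

end Pool.MP_79a731_al.H5
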